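import Pool.Agent.X55.FD.Rand

/-! The number of values of a binary function on a random set: the variance. -/

namespace Pool.Agent.X55.FD
open Finset

variable {ι κ : Type*} [DecidableEq ι] [DecidableEq κ]

theorem img_insert (f : ι → ι → κ) (S : Finset ι) (i : ι) :
    ((image₂ f (insert i S) (insert i S)).card : ℝ) ≤ (image₂ f S S).card + 2 * S.card + 1 := by
  have h : image₂ f (insert i S) (insert i S) ⊆
      (image₂ f S S ∪ (insert i S).image (f i)) ∪ S.image (fun x => f x i) := by
    intro z hz
    obtain ⟨x, hx, y, hy, rfl⟩ := mem_image₂.mp hz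
    simp only [mem_union, mem_image, mem_image₂]
    rcases mem_insert.mp hx with h1 | h1
    · left; right
      exact ⟨y, hy, by rw [h1]⟩
    · rcases mem_insert.mp hy with h2 | h2
      · right
        exact ⟨x, h1, by rw [h2]⟩
      · left; left
        exact ⟨x, h1, y, h2, rfl⟩
  have h1 := card_le_card h
  have h2 := card_union_le (image₂ f S S ∪ (insert i S).image (f i)) (S.image (fun x => f x i))
  have h3 := card_union_le (image₂ f S S) ((insert i S).image (f i))
  have h4 := card_image_le (s := insert i S) (f := f i)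
  have h5 := card_image_le (s := S) (f := fun x => f x i)
  have h6 := card_insert_le i S
  have : (image₂ f (insert i S) (insert i S)).card ≤ (image₂ f S S).card + 2 * S.card + 1 := by
    omega
  exact_mod_cast this

theorem img_erase_sum (f : ι → ι → κ) (S : Finset ι) :
    ∑ i ∈ S, (((image₂ f S S).card : ℝ) - (image₂ f (S.erase i) (S.erase i)).card) ≤
      2 * (image₂ f S S).card := by
  classical
  rcases S.eq_empty_or_nonempty with rfl | ⟨i0, hi0⟩
  · simp
  have hrep : ∀ z : κ, ∃ p : ι × ι, z ∈ image₂ f S S → p.1 ∈ S ∧ p.2 ∈ S ∧ f p.1 p.2 = z := by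
    intro z
    by_cases hz : z ∈ image₂ f S S
    · obtain ⟨x, hx, y, hy, h⟩ := mem_image₂.mp hz
      exact ⟨(x, y), fun _ => ⟨hx, hy, h⟩⟩
    · exact ⟨(i0, i0), fun h => absurd h hz⟩
  choose r hr using hrep
  set I := image₂ f S S with hI
  have h1 : ∀ i ∈ S, ((I.card : ℝ) - (image₂ f (S.erase i) (S.erase i)).card) ≤
      ((I.filter (fun z => (r z).1 = i)).card : ℝ) + (I.filter (fun z => (r z).2 = i)).card := by
    intro i hi
    have hsub : I ⊆ (image₂ f (S.erase i) (S.erase i) ∪ I.filter (fun z => (r z).1 = i)) ∪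
        I.filter (fun z => (r z).2 = i) := by
      intro z hz
      obtain ⟨q1, q2, q3⟩ := hr z hz
      by_cases c1 : (r z).1 = i
      · simp [hz, c1]
      · by_cases c2 : (r z).2 = i
        · simp [hz, c2]
        · have : z ∈ image₂ f (S.erase i) (S.erase i) :=
            mem_image₂.mpr ⟨(r z).1, mem_erase.mpr ⟨c1, q1⟩, (r z).2, mem_erase.mpr ⟨c2, q2⟩, q3⟩
          simp [this]
    have h2 := card_le_card hsub
    have h3 := card_union_le (image₂ f (S.erase i) (S.erase i) ∪ I.filter (fun z => (r z).1 = i))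
      (I.filter (fun z => (r z).2 = i))
    have h4 := card_union_le (image₂ f (S.erase i) (S.erase i)) (I.filter (fun z => (r z).1 = i))
    have h5 : I.card ≤ (image₂ f (S.erase i) (S.erase i)).card +
      (I.filter (fun z => (r z).1 = i)).card + (I.filter (fun z => (r z).2 = i)).card := by omega
    have h6 : (I.card : ℝ) ≤ (image₂ f (S.erase i) (S.erase i)).card +
      (I.filter (fun z => (r z).1 = i)).card + (I.filter (fun z => (r z).2 = i)).card := by
      exact_mod_cast h5
    linarith
  have h2 := card_eq_sum_card_fiberwise (s := I) (t := S) (f := fun z => (r z).1)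
    (fun z hz => (hr z hz).1)
  have h3 := card_eq_sum_card_fiberwise (s := I) (t := S) (f := fun z => (r z).2)
    (fun z hz => (hr z hz).2.1)
  have h4 := sum_le_sum h1
  rw [sum_add_distrib] at h4
  have h2' : (I.card : ℝ) = ∑ i ∈ S, ((I.filter (fun z => (r z).1 = i)).card : ℝ) := by
    exact_mod_cast h2
  have h3' : (I.card : ℝ) = ∑ i ∈ S, ((I.filter (fun z => (r z).2 = i)).card : ℝ) := by
    exact_mod_cast h3
  linarith

/-- the variance of the number of values -/
theorem var_img {a : ι → ℝ} (h0 : ∀ i, 0 ≤ a i) (h1 : ∀ i, a i ≤ 1) (f : ι → ι → κ)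
    (U : Finset ι) {X : Finset ι → ℝ} (hX : ∀ S, X S = (image₂ f S S).card) {A m : ℝ}
    (hA : A = ∑ i ∈ U, a i) (hm : m = Ex a U X) :
    Ex a U (fun S => X S ^ 2) - m ^ 2 ≤ 4 * (A * (m + 2 * A + 1)) := by
  rw [hm]
  refine (efron_stein h0 h1 U X).trans ?_
  -- the squares of the differences
  have e1 : ∑ i ∈ U, a i * (1 - a i) * Ex a U (fun S => (X (insert i S) - X (S.erase i)) ^ 2) ≤
      ∑ i ∈ U, a i * Ex a U (fun S => (X (insert i S) - X ((insert i S).erase i)) ^ 2) := by
    apply sum_le_sum
    intro i _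
    have q : ∀ S : Finset ι, (insert i S).erase i = S.erase i := fun S => erase_insert_eq_erase S i
    simp only [q]
    apply mul_le_mul_of_nonneg_right _ (Ex_nonneg h0 h1 fun S _ => sq_nonneg _)
    nlinarith [h0 i, h1 i, mul_nonneg (h0 i) (h0 i)]
  refine e1.trans ?_
  have e2 : ∑ i ∈ U, a i * Ex a U (fun S => (X (insert i S) - X ((insert i S).erase i)) ^ 2) =
      Ex a U (fun S => ∑ i ∈ S, (X S - X (S.erase i)) ^ 2) := by
    have q1 : ∀ i ∈ U, a i * Ex a U (fun S => (X (insert i S) - X ((insert i S).erase i)) ^ 2) =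
        Ex a U (fun S => if i ∈ S then (X S - X (S.erase i)) ^ 2 else 0) := by
      intro i hi
      have := Ex_mem (a := a) hi (fun S => (X S - X (S.erase i)) ^ 2)
      rw [this]
    rw [sum_congr rfl q1, ← Ex_sum]
    apply Ex_congr
    intro S hS
    rw [← sum_filter, filter_mem_eq_inter, inter_eq_right.mpr hS]
  rw [e2]
  have e3 : ∀ S ⊆ U, ∑ i ∈ S, (X S - X (S.erase i)) ^ 2 ≤ 4 * ((S.card : ℝ) * X S) := by
    intro S _
    have q1 : ∀ i ∈ S, (X S - X (S.erase i)) ^ 2 ≤ 2 * S.card * (X S - X (S.erase i)) := by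
      intro i hi
      have q2 := img_insert f (S.erase i) i
      rw [insert_erase hi] at q2
      have q3 : ((S.erase i).card : ℝ) = S.card - 1 := by
        rw [card_erase_of_mem hi]
        have : 1 ≤ S.card := card_pos.mpr ⟨i, hi⟩
        push_cast [Nat.cast_sub this]
        ring
      have q4 : X S - X (S.erase i) ≤ 2 * S.card := by
        rw [hX, hX]
        rw [q3] at q2
        linarith
      have q5 : 0 ≤ X S - X (S.erase i) := by
        rw [hX, hX]
        have : (image₂ f (S.erase i) (S.erase i)).card ≤ (image₂ f S S).card :=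
          card_le_card (image₂_subset (erase_subset _ _) (erase_subset _ _))
        have : ((image₂ f (S.erase i) (S.erase i)).card : ℝ) ≤ (image₂ f S S).card := by
          exact_mod_cast this
        linarith
      rw [sq]
      exact mul_le_mul_of_nonneg_right q4 q5
    have q6 := sum_le_sum q1
    rw [← mul_sum] at q6
    have q7 := img_erase_sum f S
    have q8 : ∑ i ∈ S, (X S - X (S.erase i)) ≤ 2 * X S := by
      simpa only [hX] using q7
    have q9 : (0 : ℝ) ≤ 2 * S.card := by positivity
    nlinarith [mul_le_mul_of_nonneg_left q8 q9]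
  have e4 := Ex_mono h0 h1 (U := U) e3
  refine e4.trans ?_
  rw [Ex_mul]
  apply mul_le_mul_of_nonneg_left _ (by norm_num)
  rw [Ex_card_mul, hA, sum_mul]
  apply sum_le_sum
  intro i _
  apply mul_le_mul_of_nonneg_left _ (h0 i)
  have e5 : Ex a U (fun S => X (insert i S)) ≤ Ex a U (fun S => (X S + 2 * S.card) + 1) := by
    apply Ex_mono h0 h1
    intro S _
    rw [hX, hX]
    exact img_insert f S i
  rw [Ex_add, Ex_add, Ex_const, Ex_mul, Ex_card] at e5
  exact e5

end Pool.Agent.X55.FD
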