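import Mathlib

/-! The truncated sums of product functions: a Cramér type lower bound. -/

namespace Pool.Agent.X55.FD
open Finset

theorem sq_sum (G : Finset ℤ) (w h : ℤ → ℝ) (hw : ∑ m ∈ G, w m = 1)
    (hh : ∑ m ∈ G, w m * h m = 0) (n : ℕ) :
    ∑ z ∈ Fintype.piFinset (fun _ : Fin n => G), (∏ i, w (z i)) * (∑ i, h (z i)) ^ 2 =
      n * ∑ m ∈ G, w m * h m ^ 2 := by
  classical
  have e1 : ∀ z : Fin n → ℤ, (∏ i, w (z i)) * (∑ i, h (z i)) ^ 2 =
      ∑ i, ∑ j, ∏ l, (w (z l) * ((if l = i then h (z l) else 1) * (if l = j then h (z l) else 1))) := by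
    intro z
    rw [sq, sum_mul_sum, mul_sum]
    apply sum_congr rfl
    intro i _
    rw [mul_sum]
    apply sum_congr rfl
    intro j _
    rw [prod_mul_distrib, prod_mul_distrib]
    simp
  simp only [e1]
  rw [sum_comm]
  have e2 : ∀ i : Fin n, ∑ z ∈ Fintype.piFinset (fun _ : Fin n => G),
      ∑ j, ∏ l, (w (z l) * ((if l = i then h (z l) else 1) * (if l = j then h (z l) else 1))) =
      ∑ m ∈ G, w m * h m ^ 2 := by
    intro i
    rw [sum_comm]
    have e3 : ∀ j : Fin n, ∑ z ∈ Fintype.piFinset (fun _ : Fin n => G),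
        ∏ l, (w (z l) * ((if l = i then h (z l) else 1) * (if l = j then h (z l) else 1))) =
        if j = i then ∑ m ∈ G, w m * h m ^ 2 else 0 := by
      intro j
      have := Finset.prod_univ_sum (fun _ : Fin n => G)
        (fun l m => w m * ((if l = i then h m else 1) * (if l = j then h m else 1)))
      rw [← this]
      by_cases hij : j = i
      · rw [if_pos hij, hij]
        rw [prod_eq_single i]
        · apply sum_congr rfl
          intro m _
          simp only [if_true]
          ring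
        · intro l _ hl
          simp only [if_neg hl, mul_one]
          exact hw
        · intro h; exact absurd (mem_univ i) h
      · rw [if_neg hij]
        apply prod_eq_zero (mem_univ i)
        simp only [if_true]
        rw [← hh]
        apply sum_congr rfl
        intro m _
        rw [if_neg (Ne.symm hij), mul_one]
    simp only [e3]
    simp
  simp only [e2]
  simp

theorem exists_tilt (G : Finset ℤ) (g : ℤ → ℝ) (hg : ∀ m ∈ G, 0 < g m) :
    ∃ p ∈ Set.Icc (0 : ℝ) 1, (p = 0 ∧ 0 ≤ ∑ m ∈ G, g m ^ p * Real.log (g m)) ∨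
      (p = 1 ∧ ∑ m ∈ G, g m ^ p * Real.log (g m) ≤ 0) ∨
      ∑ m ∈ G, g m ^ p * Real.log (g m) = 0 := by
  set e : ℝ → ℝ := fun p => ∑ m ∈ G, g m ^ p * Real.log (g m) with he
  by_cases h0 : 0 ≤ e 0
  · exact ⟨0, ⟨le_rfl, zero_le_one⟩, Or.inl ⟨rfl, h0⟩⟩
  by_cases h1 : e 1 ≤ 0
  · exact ⟨1, ⟨zero_le_one, le_rfl⟩, Or.inr (Or.inl ⟨rfl, h1⟩)⟩
  have hc : ContinuousOn e (Set.Icc 0 1) := by
    apply Continuous.continuousOn
    apply continuous_finset_sum
    intro m hm
    exact (Real.continuous_const_rpow (hg m hm).ne').mul continuous_const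
  have := intermediate_value_Icc zero_le_one hc
  obtain ⟨p, hp, hp2⟩ := this ⟨(not_le.mp h0).le, (not_le.mp h1).le⟩
  exact ⟨p, hp, Or.inr (Or.inr hp2)⟩

theorem cramer (G : Finset ℤ) (g : ℤ → ℝ) (hg : ∀ m ∈ G, 0 < g m) (hne : G.Nonempty)
    {c : ℝ} (hc : 0 ≤ c) (hinf : ∀ p ∈ Set.Icc (0 : ℝ) 1, c ≤ ∑ m ∈ G, g m ^ p)
    {δ : ℝ} (hδ : 0 < δ) : ∃ n0 : ℕ, ∀ n ≥ n0, c ^ n * Real.exp (-(δ * n)) / 2 ≤
      ∑ z ∈ Fintype.piFinset (fun _ : Fin n => G), min 1 (∏ i, g (z i)) := by
  obtain ⟨p, hp, hcase⟩ := exists_tilt G g hg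
  set f : ℝ := ∑ m ∈ G, g m ^ p with hf
  have hfpos : 0 < f := sum_pos (fun m hm => Real.rpow_pos_of_pos (hg m hm) p) hne
  set E : ℝ := (∑ m ∈ G, g m ^ p * Real.log (g m)) / f with hE
  set w : ℤ → ℝ := fun m => g m ^ p / f with hw
  set h : ℤ → ℝ := fun m => Real.log (g m) - E with hh
  have hw1 : ∑ m ∈ G, w m = 1 := by
    rw [hw, ← sum_div, ← hf, div_self hfpos.ne']
  have hw2 : ∑ m ∈ G, w m * h m = 0 := by
    have : ∀ m ∈ G, w m * h m = g m ^ p * Real.log (g m) / f - E * w m := by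
      intro m _
      rw [hw, hh]
      dsimp only
      ring
    rw [sum_congr rfl this, sum_sub_distrib, ← sum_div, ← mul_sum, hw1, hE]
    ring
  set V : ℝ := ∑ m ∈ G, w m * h m ^ 2 with hV
  have hw0 : ∀ m ∈ G, 0 ≤ w m := fun m hm => div_nonneg (Real.rpow_nonneg (hg m hm).le p) hfpos.le
  obtain ⟨n0, hn0⟩ := exists_nat_ge (2 * V / δ ^ 2 + 1)
  refine ⟨max n0 1, fun n hn => ?_⟩
  have hn1 : 1 ≤ n := le_trans (le_max_right _ _) hn
  have hn2 : 2 * V / δ ^ 2 ≤ n := by
    have : (n0 : ℝ) ≤ n := by exact_mod_cast le_trans (le_max_left _ _) hn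
    linarith
  have hnr : (1 : ℝ) ≤ n := by exact_mod_cast hn1
  have hnpos : (0 : ℝ) < n := by linarith
  have hbound : ∀ z ∈ Fintype.piFinset (fun _ : Fin n => G),
      Real.exp (-(δ * n)) * f ^ n * ((∏ i, w (z i)) - (∏ i, w (z i)) * (∑ i, h (z i)) ^ 2 /
        (δ * n) ^ 2) ≤ min 1 (∏ i, g (z i)) := by
    intro z hz
    rw [Fintype.mem_piFinset] at hz
    have hzpos : ∀ i, 0 < g (z i) := fun i => hg _ (hz i)
    have hW : 0 ≤ ∏ i, w (z i) := prod_nonneg fun i _ => hw0 _ (hz i)
    have hprod : 0 < ∏ i, g (z i) := prod_pos fun i _ => hzpos i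
    by_cases hgood : |∑ i, h (z i)| ≤ δ * n
    · -- good
      set L : ℝ := ∑ i, Real.log (g (z i)) with hL
      have hLe : L = ∑ i, h (z i) + n * E := by
        rw [hL, hh]
        simp only [sum_sub_distrib, sum_const, card_univ, Fintype.card_fin, nsmul_eq_mul]
        ring
      have hPL : ∏ i, g (z i) = Real.exp L := by
        rw [hL, Real.exp_sum]
        apply prod_congr rfl
        intro i _
        rw [Real.exp_log (hzpos i)]
      have hWe : f ^ n * ∏ i, w (z i) = Real.exp (p * L) := by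
        have : ∏ i, w (z i) = (∏ i, g (z i) ^ p) / f ^ n := by
          rw [hw]
          dsimp only
          rw [prod_div_distrib, prod_const, card_univ, Fintype.card_fin]
        rw [this, mul_div_cancel₀ _ (pow_pos hfpos n).ne', hL, mul_sum, Real.exp_sum]
        apply prod_congr rfl
        intro i _
        rw [Real.rpow_def_of_pos (hzpos i), mul_comm]
      rw [abs_le] at hgood
      have hdn : 0 ≤ δ * n := by positivity
      have hfin : p * L ≤ δ * n ∧ -((1 - p) * L) ≤ δ * n := by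
        rcases hcase with ⟨c1, c2⟩ | ⟨c1, c2⟩ | c2
        · have hE0 : 0 ≤ E := div_nonneg c2 hfpos.le
          have : 0 ≤ n * E := by positivity
          rw [c1]
          constructor
          · linarith
          · rw [hLe]; linarith
        · have hE0 : E ≤ 0 := div_nonpos_of_nonpos_of_nonneg c2 hfpos.le
          have : n * E ≤ 0 := mul_nonpos_of_nonneg_of_nonpos hnpos.le hE0
          rw [c1]
          constructor
          · rw [hLe]; linarith
          · linarith
        · have hE0 : E = 0 := by rw [hE, c2, zero_div]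
          rw [hLe, hE0, mul_zero, add_zero]
          have hp0 := hp.1
          have hp1 := hp.2
          constructor <;> nlinarith [hgood.1, hgood.2]
      have hupper : Real.exp (-(δ * n)) * f ^ n * ((∏ i, w (z i)) - (∏ i, w (z i)) *
          (∑ i, h (z i)) ^ 2 / (δ * n) ^ 2) ≤ Real.exp (-(δ * n)) * f ^ n * (∏ i, w (z i)) := by
        apply mul_le_mul_of_nonneg_left _ (by positivity)
        have : 0 ≤ (∏ i, w (z i)) * (∑ i, h (z i)) ^ 2 / (δ * n) ^ 2 := by positivity
        linarith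
      refine hupper.trans ?_
      rw [mul_assoc, hWe, ← Real.exp_add, hPL]
      apply le_min
      · rw [← Real.exp_zero]
        apply Real.exp_le_exp.mpr
        linarith [hfin.1]
      · apply Real.exp_le_exp.mpr
        linarith [hfin.2]
    · -- bad
      push Not at hgood
      have hdn : 0 < δ * n := by positivity
      have h1 : (δ * n) ^ 2 ≤ (∑ i, h (z i)) ^ 2 := by
        rw [← sq_abs (∑ i, h (z i))]
        exact pow_le_pow_left₀ hdn.le hgood.le 2
      have h2 : ∏ i, w (z i) ≤ (∏ i, w (z i)) * (∑ i, h (z i)) ^ 2 / (δ * n) ^ 2 := by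
        rw [le_div_iff₀ (by positivity)]
        exact mul_le_mul_of_nonneg_left h1 hW
      have h3 : Real.exp (-(δ * n)) * f ^ n * ((∏ i, w (z i)) - (∏ i, w (z i)) *
          (∑ i, h (z i)) ^ 2 / (δ * n) ^ 2) ≤ 0 :=
        mul_nonpos_of_nonneg_of_nonpos (by positivity) (by linarith)
      exact h3.trans (le_min zero_le_one hprod.le)
  have hsum := sum_le_sum hbound
  rw [← mul_sum, sum_sub_distrib, ← sum_div, sq_sum G w h hw1 hw2 n] at hsum
  have hone : ∑ z ∈ Fintype.piFinset (fun _ : Fin n => G), ∏ i, w (z i) = 1 := by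
    have := Finset.prod_univ_sum (fun _ : Fin n => G) (fun _ m => w m)
    rw [← this]
    simp [hw1]
  rw [hone] at hsum
  have hVn : (n : ℝ) * V / (δ * n) ^ 2 ≤ 1 / 2 := by
    rw [div_le_iff₀ (by positivity)]
    rw [div_le_iff₀ (by positivity)] at hn2
    nlinarith
  have hcf : c ^ n ≤ f ^ n := pow_le_pow_left₀ hc (hinf p hp) n
  have hexp : 0 < Real.exp (-(δ * n)) := Real.exp_pos _
  calc c ^ n * Real.exp (-(δ * n)) / 2 ≤ Real.exp (-(δ * n)) * f ^ n * (1 / 2) := by
        nlinarith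
    _ ≤ Real.exp (-(δ * n)) * f ^ n * (1 - n * V / (δ * n) ^ 2) := by
        apply mul_le_mul_of_nonneg_left _ (by positivity)
        linarith
    _ ≤ _ := hsum

end Pool.Agent.X55.FD
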