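import Pool.Agent.X55.FD.Low

/-! A subset for which all sizes are near their expectations. -/

set_option linter.unusedSectionVars false

namespace Pool.Agent.X55.FD
open Finset

variable {ι κ : Type*} [DecidableEq ι] [DecidableEq κ]

theorem card_le_img {f : ι → ι → κ} (hf2 : ∀ y, Function.Injective fun x => f x y)
    (S : Finset ι) : (S.card : ℝ) ≤ (image₂ f S S).card := by
  rcases S.eq_empty_or_nonempty with rfl | ⟨y, hy⟩
  · simp
  · have h1 : S.image (fun x => f x y) ⊆ image₂ f S S := by
      intro z hz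
      obtain ⟨x, hx, rfl⟩ := mem_image.mp hz
      exact mem_image₂.mpr ⟨x, hx, y, hy, rfl⟩
    have h2 := card_le_card h1
    rw [card_image_of_injective S (hf2 y)] at h2
    exact_mod_cast h2

theorem exists_good {a : ι → ℝ} (h0 : ∀ i, 0 ≤ a i) (h1 : ∀ i, a i ≤ 1) (U : Finset ι)
    (K : Finset ℤ) (f : ℤ → ι → ι → κ) (hf2 : ∀ k ∈ K, ∀ y, Function.Injective fun x => f k x y)
    {A L : ℝ} (hA : A = ∑ i ∈ U, a i) (hA1 : 1 ≤ A) (hL : 1 ≤ L)
    (hs : 1 / L + 4 / A + K.card * (65 / L) < 1) (m : ℤ → ℝ)
    (hm : ∀ k, m k = Ex a U (fun S => ((image₂ (f k) S S).card : ℝ))) :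
    ∃ S ⊆ U, A / 2 < S.card ∧ (S.card : ℝ) < L * A ∧ ∀ k ∈ K,
      m k / (2 * L) < (image₂ (f k) S S).card ∧ ((image₂ (f k) S S).card : ℝ) < L * m k := by
  classical
  set X : ℤ → Finset ι → ℝ := fun k S => ((image₂ (f k) S S).card : ℝ) with hX
  have hLpos : 0 < L := by linarith
  have hApos : 0 < A := by linarith
  have hmA : ∀ k ∈ K, A ≤ m k := by
    intro k hk
    rw [hA, ← Ex_card a U, hm k]
    exact Ex_mono h0 h1 fun S _ => card_le_img (hf2 k hk) S
  have hcardsq : Ex a U (fun S => (S.card : ℝ) ^ 2) ≤ A ^ 2 + A := by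
    have e1 : Ex a U (fun S => (S.card : ℝ) ^ 2) = Ex a U (fun S => (S.card : ℝ) * S.card) :=
      Ex_congr fun S _ => by ring
    rw [e1, Ex_card_mul]
    have e2 : ∀ i ∈ U, a i * Ex a U (fun S => ((insert i S).card : ℝ)) ≤ a i * (A + 1) := by
      intro i _
      apply mul_le_mul_of_nonneg_left _ (h0 i)
      have e3 : Ex a U (fun S => ((insert i S).card : ℝ)) ≤ Ex a U (fun S => (S.card : ℝ) + 1) := by
        apply Ex_mono h0 h1
        intro S _
        exact_mod_cast card_insert_le i S
      rw [Ex_add, Ex_card, Ex_const, ← hA] at e3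
      exact e3
    refine (sum_le_sum e2).trans ?_
    rw [← sum_mul, ← hA]
    apply le_of_eq
    ring
  -- the test functional
  set T : ℤ → Finset ι → ℝ := fun k S => X k S / (L * m k) +
    (if L * A ≤ m k then 4 * (X k S - m k) ^ 2 / m k ^ 2 else 0) with hT
  have hB0 : Ex a U (fun S => (S.card : ℝ) / (L * A)) = 1 / L := by
    have : (fun S : Finset ι => (S.card : ℝ) / (L * A)) = fun S => (1 / (L * A)) * S.card := by
      ext S; ring
    rw [this, Ex_mul, Ex_card, ← hA]
    field_simp
  have hB1 : Ex a U (fun S => 4 * ((S.card : ℝ) - A) ^ 2 / A ^ 2) ≤ 4 / A := by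
    have : (fun S : Finset ι => 4 * ((S.card : ℝ) - A) ^ 2 / A ^ 2) =
        fun S => (4 / A ^ 2) * (((S.card : ℝ) ^ 2 - 2 * A * S.card) + A ^ 2) := by
      ext S; ring
    rw [this, Ex_mul, Ex_add, Ex_sub, Ex_mul, Ex_card, ← hA, Ex_const]
    have h2 : (4 / A ^ 2) * ((Ex a U (fun S => (S.card : ℝ) ^ 2) - 2 * A * A) + A ^ 2) ≤
        (4 / A ^ 2) * (((A ^ 2 + A) - 2 * A * A) + A ^ 2) := by
      apply mul_le_mul_of_nonneg_left _ (by positivity)
      linarith
    refine h2.trans (le_of_eq ?_)
    field_simp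
    ring
  have hBk : ∀ k ∈ K, Ex a U (T k) ≤ 65 / L := by
    intro k hk
    have hmk := hmA k hk
    have hmpos : 0 < m k := by linarith
    rw [hT]
    dsimp only
    rw [Ex_add]
    have e1 : Ex a U (fun S => X k S / (L * m k)) = 1 / L := by
      have : (fun S : Finset ι => X k S / (L * m k)) = fun S => (1 / (L * m k)) * X k S := by
        ext S; ring
      rw [this, Ex_mul]
      have : Ex a U (fun S => X k S) = m k := (hm k).symm
      rw [this]
      field_simp
    rw [e1]
    have e2 : Ex a U (fun S => if L * A ≤ m k then 4 * (X k S - m k) ^ 2 / m k ^ 2 else 0) ≤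
        64 / L := by
      by_cases hc : L * A ≤ m k
      · simp only [if_pos hc]
        have : (fun S : Finset ι => 4 * (X k S - m k) ^ 2 / m k ^ 2) =
            fun S => (4 / m k ^ 2) * ((X k S ^ 2 - 2 * m k * X k S) + m k ^ 2) := by
          ext S; ring
        rw [this, Ex_mul, Ex_add, Ex_sub, Ex_mul, Ex_const]
        have e3 : Ex a U (fun S => X k S) = m k := (hm k).symm
        rw [e3]
        have e4 := var_img h0 h1 (f k) U (X := X k) (fun S => rfl) hA (hm k)
        have e5 : Ex a U (fun S => X k S ^ 2) - 2 * m k * m k + m k ^ 2 ≤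
            4 * (A * (m k + 2 * A + 1)) := by linarith
        have e6 : 4 * (A * (m k + 2 * A + 1)) ≤ 16 * m k ^ 2 / L := by
          rw [le_div_iff₀ hLpos]
          have g1 : m k + 2 * A + 1 ≤ 4 * m k := by linarith
          have g2 : A * (m k + 2 * A + 1) ≤ A * (4 * m k) :=
            mul_le_mul_of_nonneg_left g1 hApos.le
          have g3 : A * (4 * m k) * L ≤ 4 * m k * m k := by
            nlinarith [mul_le_mul_of_nonneg_right hc (mul_nonneg (by norm_num : (0:ℝ) ≤ 4) hmpos.le)]
          nlinarith [mul_le_mul_of_nonneg_right g2 hLpos.le]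
        have e7 : (4 / m k ^ 2) * (Ex a U (fun S => X k S ^ 2) - 2 * m k * m k + m k ^ 2) ≤
            (4 / m k ^ 2) * (16 * m k ^ 2 / L) :=
          mul_le_mul_of_nonneg_left (e5.trans e6) (by positivity)
        refine e7.trans (le_of_eq ?_)
        field_simp
        ring
      · simp only [if_neg hc]
        rw [Ex_const]
        positivity
    have : 1 / L + 64 / L = 65 / L := by ring
    linarith
  have hB : Ex a U (fun S => ((S.card : ℝ) / (L * A) + 4 * ((S.card : ℝ) - A) ^ 2 / A ^ 2) +
      ∑ k ∈ K, T k S) < 1 := by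
    rw [Ex_add, Ex_add, Ex_sum, hB0]
    have := sum_le_sum hBk
    rw [sum_const, nsmul_eq_mul] at this
    linarith
  obtain ⟨S, hSU, hS⟩ := Ex_exists h0 h1 hB
  have hT0 : ∀ k ∈ K, 0 ≤ T k S := by
    intro k hk
    have hmpos : 0 < m k := by linarith [hmA k hk]
    rw [hT]
    dsimp only
    have : 0 ≤ X k S := by rw [hX]; positivity
    apply add_nonneg (by positivity)
    split_ifs <;> positivity
  have hsum0 : 0 ≤ ∑ k ∈ K, T k S := sum_nonneg hT0
  have t1 : 0 ≤ (S.card : ℝ) / (L * A) := by positivity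
  have t2 : 0 ≤ 4 * ((S.card : ℝ) - A) ^ 2 / A ^ 2 := by positivity
  have c1 : (S.card : ℝ) / (L * A) < 1 := by linarith
  have c2 : 4 * ((S.card : ℝ) - A) ^ 2 / A ^ 2 < 1 := by linarith
  have c1' : (S.card : ℝ) < L * A := by
    rwa [div_lt_one (by positivity)] at c1
  have c2' : A / 2 < S.card := by
    rw [div_lt_one (by positivity)] at c2
    by_contra hc
    push Not at hc
    have : A / 2 ≤ A - S.card := by linarith
    nlinarith [mul_self_le_mul_self (by positivity : (0:ℝ) ≤ A / 2) this]
  refine ⟨S, hSU, c2', c1', fun k hk => ?_⟩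
  have hmk := hmA k hk
  have hmpos : 0 < m k := by linarith
  have hTk : T k S < 1 := by
    have := single_le_sum hT0 hk
    linarith
  have d1 : 0 ≤ X k S / (L * m k) := by
    have : 0 ≤ X k S := by rw [hX]; positivity
    positivity
  have d2 : 0 ≤ (if L * A ≤ m k then 4 * (X k S - m k) ^ 2 / m k ^ 2 else 0) := by
    split_ifs <;> positivity
  have hTk2 : X k S / (L * m k) +
    (if L * A ≤ m k then 4 * (X k S - m k) ^ 2 / m k ^ 2 else 0) < 1 := hTk
  have d3 : X k S / (L * m k) < 1 := by linarith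
  have d4 : (if L * A ≤ m k then 4 * (X k S - m k) ^ 2 / m k ^ 2 else 0) < 1 := by linarith
  constructor
  · by_cases hc : L * A ≤ m k
    · rw [if_pos hc, div_lt_one (by positivity)] at d4
      have g1 : m k / 2 < X k S := by
        by_contra hcc
        push Not at hcc
        have : m k / 2 ≤ m k - X k S := by linarith
        nlinarith [mul_self_le_mul_self (by positivity : (0:ℝ) ≤ m k / 2) this]
      have g2 : m k / (2 * L) ≤ m k / 2 := by
        apply div_le_div_of_nonneg_left hmpos.le (by norm_num)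
        linarith
      exact lt_of_le_of_lt g2 g1
    · push Not at hc
      have g1 : (S.card : ℝ) ≤ X k S := card_le_img (hf2 k hk) S
      have g2 : m k / (2 * L) < A / 2 := by
        rw [div_lt_div_iff₀ (by positivity) (by norm_num)]
        nlinarith
      linarith
  · rwa [div_lt_one (by positivity)] at d3

end Pool.Agent.X55.FD
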