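import Pool.Agent.X55.FD.Count

/-! Upper and lower bounds for the expected number of values. -/

set_option linter.unusedSectionVars false

namespace Pool.Agent.X55.FD
open Finset

variable {ι κ : Type*} [DecidableEq ι] [DecidableEq κ]

/-- the pairs with a given value -/
def Q (f : ι → ι → κ) (U : Finset ι) (z : κ) : Finset (ι × ι) :=
  (U ×ˢ U).filter fun q => f q.1 q.2 = z

/-- the expected number of representations, up to the diagonal -/
noncomputable def Ga (a : ι → ℝ) (f : ι → ι → κ) (U : Finset ι) (z : κ) : ℝ :=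
  ∑ q ∈ Q f U z, a q.1 * a q.2

noncomputable def pr (a : ι → ℝ) (q : ι × ι) : ℝ := ∏ i ∈ ({q.1, q.2} : Finset ι), a i

theorem mem_Q {f : ι → ι → κ} {U : Finset ι} {z : κ} {q : ι × ι} :
    q ∈ Q f U z ↔ (q.1 ∈ U ∧ q.2 ∈ U) ∧ f q.1 q.2 = z := by
  simp [Q]

theorem Ex_pair {a : ι → ℝ} {U : Finset ι} {q : ι × ι} (h1 : q.1 ∈ U) (h2 : q.2 ∈ U) :
    Ex a U (fun S => if q.1 ∈ S ∧ q.2 ∈ S then 1 else 0) = pr a q := by
  have hT : ({q.1, q.2} : Finset ι) ⊆ U := by
    intro x hx
    simp only [mem_insert, mem_singleton] at hx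
    rcases hx with rfl | rfl
    · exact h1
    · exact h2
  have := Ex_subset (a := a) hT
  rw [pr, ← this]
  apply Ex_congr
  intro S _
  simp [insert_subset_iff]

section
variable {a : ι → ℝ} (h0 : ∀ i, 0 ≤ a i) (h1 : ∀ i, a i ≤ 1)
include h0 h1

theorem pr_nonneg (q : ι × ι) : 0 ≤ pr a q := prod_nonneg fun i _ => h0 i

theorem mul_le_pr (q : ι × ι) : a q.1 * a q.2 ≤ pr a q := by
  by_cases h : q.1 = q.2
  · have : pr a q = a q.2 := by rw [pr, h]; simp
    rw [this, h]
    nlinarith [h0 q.2, h1 q.2]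
  · rw [pr, prod_pair h]

theorem pr_le (q : ι × ι) : pr a q ≤ a q.1 * a q.2 + if q.1 = q.2 then a q.1 else 0 := by
  by_cases h : q.1 = q.2
  · have : pr a q = a q.2 := by rw [pr, h]; simp
    rw [this, if_pos h, h]
    nlinarith [mul_nonneg (h0 q.2) (h0 q.2)]
  · rw [pr, prod_pair h, if_neg h]
    linarith

theorem Ga_nonneg (f : ι → ι → κ) (U : Finset ι) (z : κ) : 0 ≤ Ga a f U z :=
  sum_nonneg fun q _ => mul_nonneg (h0 _) (h0 _)

theorem prob_le (f : ι → ι → κ) (U : Finset ι) (z : κ) :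
    Ex a U (fun S => if z ∈ image₂ f S S then 1 else 0) ≤
      min 1 (Ga a f U z) + ∑ x ∈ U, if f x x = z then a x else 0 := by
  have hD : 0 ≤ ∑ x ∈ U, if f x x = z then a x else 0 :=
    sum_nonneg fun x _ => by split_ifs <;> simp [h0]
  have e1 : Ex a U (fun S => if z ∈ image₂ f S S then (1 : ℝ) else 0) ≤ 1 := by
    have := Ex_mono h0 h1 (U := U) (X := fun S => if z ∈ image₂ f S S then (1 : ℝ) else 0)
      (Y := fun _ => 1) (fun S _ => by split_ifs <;> norm_num)
    rwa [Ex_const] at this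
  have e2 : Ex a U (fun S => if z ∈ image₂ f S S then (1 : ℝ) else 0) ≤
      Ex a U (fun S => ∑ q ∈ Q f U z, if q.1 ∈ S ∧ q.2 ∈ S then 1 else 0) := by
    apply Ex_mono h0 h1
    intro S hS
    split_ifs with h
    · obtain ⟨x, hx, y, hy, hxy⟩ := mem_image₂.mp h
      have hq : ((x, y) : ι × ι) ∈ Q f U z := mem_Q.mpr ⟨⟨hS hx, hS hy⟩, hxy⟩
      have := single_le_sum (f := fun q : ι × ι => if q.1 ∈ S ∧ q.2 ∈ S then (1 : ℝ) else 0)
        (fun q _ => by split_ifs <;> norm_num) hq
      simpa [hx, hy] using this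
    · exact sum_nonneg fun q _ => by split_ifs <;> norm_num
  rw [Ex_sum] at e2
  have e3 : ∑ q ∈ Q f U z, Ex a U (fun S => if q.1 ∈ S ∧ q.2 ∈ S then 1 else 0) ≤
      Ga a f U z + ∑ x ∈ U, if f x x = z then a x else 0 := by
    have q1 : ∀ q ∈ Q f U z, Ex a U (fun S => if q.1 ∈ S ∧ q.2 ∈ S then 1 else 0) ≤
        a q.1 * a q.2 + if q.1 = q.2 then a q.1 else 0 := by
      intro q hq
      obtain ⟨⟨q2, q3⟩, _⟩ := mem_Q.mp hq
      rw [Ex_pair q2 q3]
      exact pr_le h0 h1 q
    refine (sum_le_sum q1).trans ?_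
    rw [sum_add_distrib]
    apply add_le_add le_rfl
    rw [← sum_filter, ← sum_filter]
    apply le_of_eq
    refine sum_bij' (fun q _ => q.1) (fun x _ => (x, x)) ?_ ?_ ?_ ?_ ?_
    · intro q hq
      simp only [mem_filter, mem_Q] at hq ⊢
      obtain ⟨⟨⟨q2, q3⟩, q4⟩, q5⟩ := hq
      rw [← q5] at q4
      exact ⟨q2, q4⟩
    · intro x hx
      simp only [mem_filter, mem_Q] at hx ⊢
      exact ⟨⟨⟨hx.1, hx.1⟩, hx.2⟩, trivial⟩
    · intro q hq
      simp only [mem_filter] at hq
      exact Prod.ext rfl hq.2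
    · intro x _; rfl
    · intro q _; rfl
  rcases le_total 1 (Ga a f U z) with h | h
  · rw [min_eq_left h]
    linarith
  · rw [min_eq_right h]
    linarith

theorem le_prob {f : ι → ι → κ} (hf1 : ∀ x, Function.Injective (f x))
    (hf2 : ∀ y, Function.Injective fun x => f x y) (U : Finset ι) (z : κ) :
    min 1 (Ga a f U z) / 4 ≤ Ex a U (fun S => if z ∈ image₂ f S S then 1 else 0) := by
  classical
  set R : Finset ι → ℝ := fun S => ∑ q ∈ Q f U z, if q.1 ∈ S ∧ q.2 ∈ S then (1 : ℝ) else 0 with hR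
  set μ : ℝ := ∑ q ∈ Q f U z, pr a q with hμ
  have hμ0 : 0 ≤ μ := sum_nonneg fun q _ => pr_nonneg h0 h1 q
  have eR : Ex a U R = μ := by
    rw [hR, Ex_sum]
    apply sum_congr rfl
    intro q hq
    obtain ⟨⟨q2, q3⟩, _⟩ := mem_Q.mp hq
    exact Ex_pair q2 q3
  -- the second moment
  have eR2 : Ex a U (fun S => R S ^ 2) ≤ μ ^ 2 + 3 * μ := by
    have q1 : Ex a U (fun S => R S ^ 2) = ∑ q ∈ Q f U z, ∑ q' ∈ Q f U z,
        Ex a U (fun S => if ({q.1, q.2} ∪ {q'.1, q'.2} : Finset ι) ⊆ S then 1 else 0) := by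
      have : Ex a U (fun S => R S ^ 2) = Ex a U (fun S => ∑ q ∈ Q f U z, ∑ q' ∈ Q f U z,
          if ({q.1, q.2} ∪ {q'.1, q'.2} : Finset ι) ⊆ S then 1 else 0) := by
        apply Ex_congr
        intro S _
        rw [hR]
        dsimp only
        rw [sq, sum_mul_sum]
        apply sum_congr rfl
        intro q _
        apply sum_congr rfl
        intro q' _
        have hC : (({q.1, q.2} ∪ {q'.1, q'.2} : Finset ι) ⊆ S) ↔
            (q.1 ∈ S ∧ q.2 ∈ S) ∧ (q'.1 ∈ S ∧ q'.2 ∈ S) := by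
          simp only [union_subset_iff, insert_subset_iff, singleton_subset_iff]
        simp only [hC]
        by_cases A : q.1 ∈ S ∧ q.2 ∈ S
        · by_cases B : q'.1 ∈ S ∧ q'.2 ∈ S
          · rw [if_pos A, if_pos B, if_pos ⟨A, B⟩]; norm_num
          · rw [if_pos A, if_neg B, mul_zero, if_neg (fun h => B h.2)]
        · rw [if_neg A, zero_mul, if_neg (fun h => A h.1)]
      rw [this, Ex_sum]
      apply sum_congr rfl
      intro q _
      rw [Ex_sum]
    rw [q1]
    have q2 : ∀ q ∈ Q f U z, ∑ q' ∈ Q f U z,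
        Ex a U (fun S => if ({q.1, q.2} ∪ {q'.1, q'.2} : Finset ι) ⊆ S then 1 else 0) ≤
        pr a q * μ + 3 * pr a q := by
      intro q hq
      obtain ⟨⟨c1, c2⟩, c3⟩ := mem_Q.mp hq
      have q3 : ∀ q' ∈ Q f U z,
          Ex a U (fun S => if ({q.1, q.2} ∪ {q'.1, q'.2} : Finset ι) ⊆ S then 1 else 0) ≤
          pr a q * pr a q' +
            if ¬ Disjoint ({q.1, q.2} : Finset ι) {q'.1, q'.2} then pr a q else 0 := by
        intro q' hq'
        obtain ⟨⟨d1, d2⟩, d3⟩ := mem_Q.mp hq'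
        by_cases hd : Disjoint ({q.1, q.2} : Finset ι) {q'.1, q'.2}
        · have hT : ({q.1, q.2} ∪ {q'.1, q'.2} : Finset ι) ⊆ U := by
            simp [union_subset_iff, insert_subset_iff, c1, c2, d1, d2]
          rw [Ex_subset hT, prod_union hd]
          simp [hd, pr]
        · rw [if_pos hd]
          have q4 : Ex a U (fun S =>
              if ({q.1, q.2} ∪ {q'.1, q'.2} : Finset ι) ⊆ S then (1 : ℝ) else 0) ≤
              Ex a U (fun S => if q.1 ∈ S ∧ q.2 ∈ S then (1 : ℝ) else 0) := by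
            apply Ex_mono h0 h1
            intro S _
            by_cases e : ({q.1, q.2} ∪ {q'.1, q'.2} : Finset ι) ⊆ S
            · have e2 : q.1 ∈ S ∧ q.2 ∈ S := ⟨e (by simp), e (by simp)⟩
              rw [if_pos e, if_pos e2]
            · rw [if_neg e]
              split_ifs <;> norm_num
          rw [Ex_pair c1 c2] at q4
          have := mul_nonneg (pr_nonneg h0 h1 q) (pr_nonneg h0 h1 q')
          linarith
      refine (sum_le_sum q3).trans ?_
      rw [sum_add_distrib, ← mul_sum, ← sum_filter, sum_const, nsmul_eq_mul]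
      apply add_le_add le_rfl
      apply mul_le_mul_of_nonneg_right _ (pr_nonneg h0 h1 q)
      have hsub : (Q f U z).filter
          (fun q' => ¬ Disjoint ({q.1, q.2} : Finset ι) {q'.1, q'.2}) ⊆
          ({q} ∪ (Q f U z).filter (fun q' => q'.1 = q.2)) ∪
            (Q f U z).filter (fun q' => q'.2 = q.1) := by
        intro q' hq'
        rw [mem_filter] at hq'
        obtain ⟨hq1, hq2⟩ := hq'
        obtain ⟨_, d3⟩ := mem_Q.mp hq1
        rw [not_disjoint_iff] at hq2
        obtain ⟨w, w1, w2⟩ := hq2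
        simp only [mem_insert, mem_singleton] at w1 w2
        simp only [mem_union, mem_singleton, mem_filter, hq1, true_and]
        rcases w1 with w1 | w1 <;> rcases w2 with w2 | w2
        · left; left
          have e : q'.1 = q.1 := by rw [← w1, ← w2]
          have e2 : f q.1 q'.2 = f q.1 q.2 := by rw [← e, d3, e, c3]
          exact Prod.ext e (hf1 _ e2)
        · right
          rw [← w1, ← w2]
        · left; right
          rw [← w1, ← w2]
        · left; left
          have e : q'.2 = q.2 := by rw [← w1, ← w2]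
          have e2 : f q'.1 q.2 = f q.1 q.2 := by rw [← e, d3, e, c3]
          exact Prod.ext (hf2 _ e2) e
      have hc1 : ((Q f U z).filter (fun q' => q'.1 = q.2)).card ≤ 1 := by
        rw [card_le_one]
        intro x hx y hy
        rw [mem_filter, mem_Q] at hx hy
        have e : x.1 = y.1 := hx.2.trans hy.2.symm
        have e2 : f x.1 x.2 = f x.1 y.2 := by rw [hx.1.2, e, hy.1.2]
        exact Prod.ext e (hf1 _ e2)
      have hc2 : ((Q f U z).filter (fun q' => q'.2 = q.1)).card ≤ 1 := by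
        rw [card_le_one]
        intro x hx y hy
        rw [mem_filter, mem_Q] at hx hy
        have e : x.2 = y.2 := hx.2.trans hy.2.symm
        have e2 : f x.1 x.2 = f y.1 x.2 := by rw [hx.1.2, e, hy.1.2]
        exact Prod.ext (hf2 _ e2) e
      have g1 := card_le_card hsub
      have g2 := card_union_le ({q} ∪ (Q f U z).filter (fun q' => q'.1 = q.2))
        ((Q f U z).filter (fun q' => q'.2 = q.1))
      have g3 := card_union_le ({q} : Finset (ι × ι)) ((Q f U z).filter (fun q' => q'.1 = q.2))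
      rw [card_singleton] at g3
      have g4 : ((Q f U z).filter
          (fun q' => ¬ Disjoint ({q.1, q.2} : Finset ι) {q'.1, q'.2})).card ≤ 3 := by omega
      exact_mod_cast g4
    refine (sum_le_sum q2).trans ?_
    rw [sum_add_distrib, ← sum_mul, ← mul_sum]
    apply le_of_eq
    rw [← hμ]
    ring
  -- comparison
  set t : ℝ := 1 / (μ + 3) with ht
  have hpos : 0 < μ + 3 := by linarith
  have key : Ex a U (fun S => 2 * t * R S - t ^ 2 * R S ^ 2) ≤
      Ex a U (fun S => if z ∈ image₂ f S S then 1 else 0) := by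
    apply Ex_mono h0 h1
    intro S _
    by_cases h : z ∈ image₂ f S S
    · rw [if_pos h]
      nlinarith [sq_nonneg (1 - t * R S)]
    · rw [if_neg h]
      have : R S = 0 := by
        rw [hR]
        apply sum_eq_zero
        intro q hq
        rw [if_neg]
        rintro ⟨c1, c2⟩
        exact h (mem_image₂.mpr ⟨q.1, c1, q.2, c2, (mem_Q.mp hq).2⟩)
      rw [this]
      simp
  rw [Ex_sub, Ex_mul, Ex_mul, eR] at key
  have k1 : μ / (μ + 3) ≤ 2 * t * μ - t ^ 2 * Ex a U (fun S => R S ^ 2) := by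
    have k2 : t ^ 2 * Ex a U (fun S => R S ^ 2) ≤ t ^ 2 * (μ ^ 2 + 3 * μ) :=
      mul_le_mul_of_nonneg_left eR2 (sq_nonneg _)
    have k3 : 2 * t * μ - t ^ 2 * (μ ^ 2 + 3 * μ) = μ / (μ + 3) := by
      rw [ht]
      field_simp
      ring
    linarith
  have k4 : min 1 (Ga a f U z) ≤ μ := by
    refine (min_le_right _ _).trans ?_
    exact sum_le_sum fun q _ => mul_le_pr h0 h1 q
  have k5 : 0 ≤ min 1 (Ga a f U z) := le_min (by norm_num) (Ga_nonneg h0 h1 f U z)
  have k6 : min 1 (Ga a f U z) ≤ 1 := min_le_left _ _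
  have k7 : min 1 (Ga a f U z) / 4 ≤ μ / (μ + 3) := by
    rw [div_le_div_iff₀ (by norm_num) hpos]
    nlinarith
  linarith

end

end Pool.Agent.X55.FD
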