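import Pool.Agent.X55.FD.Radix

/-! The main theorem on fractional sets. -/

set_option linter.unusedSectionVars false

namespace Pool.Agent.X55.FD
open Finset Filter Topology

theorem quot_cont {a : ℝ} (ha : a ≠ 0) (b : ℝ) {ε : ℝ} (hε : 0 < ε) :
    ∃ η > 0, ∀ u v : ℝ, |u - a| < η → |v - b| < η → |b / a - v / u| < ε := by
  have hc : ContinuousAt (fun p : ℝ × ℝ => p.2 / p.1) (a, b) :=
    ContinuousAt.div continuousAt_snd continuousAt_fst ha
  obtain ⟨η, hη, h⟩ := Metric.continuousAt_iff.mp hc ε hε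
  refine ⟨η, hη, fun u v hu hv => ?_⟩
  have h1 : dist (u, v) (a, b) < η := by
    rw [Prod.dist_eq, max_lt_iff]
    exact ⟨by rwa [Real.dist_eq], by rwa [Real.dist_eq]⟩
  have h2 := h h1
  rw [Real.dist_eq] at h2
  rw [abs_sub_comm]
  exact h2

theorem quot_cont_all {a : ℝ} (ha : a ≠ 0) (b : ℤ → ℝ) {ε : ℝ} (hε : 0 < ε) (K : Finset ℤ) :
    ∃ η > 0, ∀ k ∈ K, ∀ u v : ℝ, |u - a| < η → |v - b k| < η → |b k / a - v / u| < ε := by
  induction K using Finset.induction_on with
  | empty => exact ⟨1, one_pos, fun k hk => absurd hk (notMem_empty k)⟩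
  | insert j K _ ih =>
    obtain ⟨η1, h1, h2⟩ := ih
    obtain ⟨η2, h3, h4⟩ := quot_cont ha (b j) hε
    refine ⟨min η1 η2, lt_min h1 h3, fun k hk u v hu hv => ?_⟩
    rcases mem_insert.mp hk with rfl | hk
    · exact h4 u v (lt_of_lt_of_le hu (min_le_right _ _)) (lt_of_lt_of_le hv (min_le_right _ _))
    · exact h2 k hk u v (lt_of_lt_of_le hu (min_le_left _ _)) (lt_of_lt_of_le hv (min_le_left _ _))

theorem main {F : Finset ℤ} {α : ℤ → ℝ} (h0 : ∀ n, 0 ≤ α n) (h1 : ∀ n, α n ≤ 1)
    (hF : ∀ n ∈ F, 0 < α n) (hs : 1 < ∑ m ∈ F, α m) (N : ℕ) {ε : ℝ} (hε : 0 < ε) :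
    ∃ S : Finset ℤ, 2 ≤ S.card ∧ ∀ k : ℤ, 1 ≤ |k| → |k| ≤ N →
      |Real.log (sz (image₂ (sk k) F F) (Ga α (sk k) F)) / Real.log (∑ m ∈ F, α m) -
        Real.log ((image₂ (sk k) S S).card) / Real.log S.card| < ε := by
  classical
  set s := ∑ m ∈ F, α m with hsd
  set c : ℤ → ℝ := fun k => sz (image₂ (sk k) F F) (Ga α (sk k) F) with hc
  set K : Finset ℤ := (Icc (-(N : ℤ)) N).erase 0 with hK
  have hspos : 0 < s := by linarith
  have hlogs : 0 < Real.log s := Real.log_pos hs
  have hFne : F.Nonempty := by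
    by_contra h
    rw [not_nonempty_iff_eq_empty] at h
    rw [hsd, h] at hs
    simp at hs
    linarith
  have hcs : ∀ k, s ≤ c k := fun k => sz_ge h0 h1 hF hs.le
  obtain ⟨η, hη, hquot⟩ := quot_cont_all hlogs.ne' (fun k => Real.log (c k)) hε K
  set δ : ℝ := η / 4 with hδ
  have hδpos : 0 < δ := by positivity
  -- the conditions on `n`
  have ev1 : ∀ᶠ n : ℕ in atTop, ∀ k ∈ K,
      c k ^ n * Real.exp (-(δ * n)) / 8 ≤
        Ex (fun x : Fin n → ℤ => ∏ i, α (x i)) (Fintype.piFinset fun _ => F)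
          (fun S => ((image₂ (fk n k) S S).card : ℝ)) ∧
      Ex (fun x : Fin n → ℤ => ∏ i, α (x i)) (Fintype.piFinset fun _ => F)
          (fun S => ((image₂ (fk n k) S S).card : ℝ)) ≤
        2 * (c k ^ n * Real.exp (δ * n)) := by
    rw [Filter.eventually_all_finset]
    intro k hk
    have hk0 : k ≠ 0 := (mem_erase.mp hk).1
    obtain ⟨n0, hn0⟩ := expect_bounds h0 h1 hF hk0 hs.le hFne hδpos
    exact eventually_atTop.mpr ⟨n0, hn0⟩
  have hLt : Tendsto (fun n : ℕ => Real.exp (δ * n)) atTop atTop :=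
    Real.tendsto_exp_atTop.comp (tendsto_natCast_atTop_atTop.const_mul_atTop hδpos)
  have hAt : Tendsto (fun n : ℕ => s ^ n) atTop atTop := tendsto_pow_atTop_atTop_of_one_lt hs
  have ev2 : ∀ᶠ n : ℕ in atTop, 1 / Real.exp (δ * n) + 4 / s ^ n +
      (K.card : ℝ) * (65 / Real.exp (δ * n)) < 1 := by
    have t1 : Tendsto (fun n : ℕ => 1 / Real.exp (δ * n)) atTop (𝓝 0) :=
      tendsto_const_nhds.div_atTop hLt
    have t2 : Tendsto (fun n : ℕ => 4 / s ^ n) atTop (𝓝 0) := tendsto_const_nhds.div_atTop hAt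
    have t3 : Tendsto (fun n : ℕ => (K.card : ℝ) * (65 / Real.exp (δ * n))) atTop
        (𝓝 ((K.card : ℝ) * 0)) := (tendsto_const_nhds.div_atTop hLt).const_mul _
    have t4 := (t1.add t2).add t3
    rw [mul_zero, add_zero, add_zero] at t4
    exact t4.eventually (gt_mem_nhds one_pos)
  have ev3 : ∀ᶠ n : ℕ in atTop, Real.log 16 ≤ δ * n :=
    (tendsto_natCast_atTop_atTop.const_mul_atTop hδpos).eventually (eventually_ge_atTop _)
  have ev4 : ∀ᶠ n : ℕ in atTop, 4 ≤ s ^ n := hAt.eventually (eventually_ge_atTop _)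
  obtain ⟨n, hn1, hn2, hn3, hn4, hn5⟩ :=
    (ev1.and (ev2.and (ev3.and (ev4.and (eventually_ge_atTop 1))))).exists
  have hnpos : (0 : ℝ) < n := by exact_mod_cast hn5
  -- the random set
  set a : (Fin n → ℤ) → ℝ := fun x => ∏ i, α (x i) with ha
  set U : Finset (Fin n → ℤ) := Fintype.piFinset fun _ => F with hU
  have a0 : ∀ x, 0 ≤ a x := fun x => prod_nonneg fun i _ => h0 _
  have a1 : ∀ x, a x ≤ 1 := fun x => prod_le_one (fun i _ => h0 _) fun i _ => h1 _
  have hA : s ^ n = ∑ x ∈ U, a x := by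
    have := Finset.prod_univ_sum (fun _ : Fin n => F) (fun _ m => α m)
    rw [← this]
    simp [hsd]
  have hf2 : ∀ k ∈ K, ∀ y, Function.Injective fun x => fk n k x y := by
    intro k _ y x x' h
    funext i
    have := congrFun h i
    simp only [fk] at this
    linarith
  have hL1 : 1 ≤ Real.exp (δ * n) := Real.one_le_exp (by positivity)
  obtain ⟨S, hSU, s1, s2, s3⟩ := exists_good a0 a1 U K (fk n) hf2 hA (by linarith) hL1 hn2
    (fun k => Ex a U (fun S => ((image₂ (fk n k) S S).card : ℝ))) (fun k => rfl)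
  obtain ⟨T, hT1, hT2⟩ := exists_radix F N n S hSU
  have hTcard : (2 : ℝ) < T.card := by
    rw [hT1]
    linarith
  refine ⟨T, ?_, fun k hk1 hk2 => ?_⟩
  · have : (2 : ℝ) ≤ T.card := hTcard.le
    exact_mod_cast this
  have hk0 : k ≠ 0 := by
    rintro rfl
    simp at hk1
  have hkK : k ∈ K := by
    rw [hK, mem_erase, mem_Icc]
    exact ⟨hk0, abs_le.mp hk2⟩
  obtain ⟨b1, b2⟩ := hn1 k hkK
  obtain ⟨b3, b4⟩ := s3 k hkK
  rw [← hT2 k hk2] at b3 b4
  rw [← hT1] at s1 s2
  set X : ℝ := ((image₂ (sk k) T T).card : ℝ) with hX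
  have hckpos : 0 < c k := lt_of_lt_of_le hspos (hcs k)
  have hexp : 0 < Real.exp (δ * n) := Real.exp_pos _
  have hcn : 0 < c k ^ n := pow_pos hckpos n
  -- bounds for `X`
  have x1 : c k ^ n * Real.exp (-(2 * (δ * n))) / 16 < X := by
    refine lt_of_le_of_lt ?_ b3
    rw [le_div_iff₀ (by positivity)]
    refine le_trans (le_of_eq ?_) b1
    have : Real.exp (-(2 * (δ * n))) * Real.exp (δ * n) = Real.exp (-(δ * n)) := by
      rw [← Real.exp_add]
      congr 1
      ring
    rw [← this]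
    ring
  have x2 : X < 2 * (c k ^ n * Real.exp (2 * (δ * n))) := by
    refine lt_of_lt_of_le b4 ?_
    refine (mul_le_mul_of_nonneg_left b2 hexp.le).trans (le_of_eq ?_)
    have : Real.exp (2 * (δ * n)) = Real.exp (δ * n) * Real.exp (δ * n) := by
      rw [← Real.exp_add]
      congr 1
      ring
    rw [this]
    ring
  have hXpos : 0 < X := lt_trans (by positivity) x1
  have hTpos : (0 : ℝ) < T.card := by linarith
  have l16 : Real.log 2 ≤ Real.log 16 := Real.log_le_log (by norm_num) (by norm_num)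
  have y1 : n * Real.log (c k) - 2 * (δ * n) - Real.log 16 < Real.log X := by
    have := Real.log_lt_log (by positivity) x1
    rw [Real.log_div (by positivity) (by norm_num), Real.log_mul (by positivity) (Real.exp_pos _).ne',
      Real.log_exp, Real.log_pow] at this
    linarith
  have y2 : Real.log X < Real.log 16 + n * Real.log (c k) + 2 * (δ * n) := by
    have := Real.log_lt_log hXpos x2
    rw [Real.log_mul (by norm_num) (by positivity), Real.log_mul (by positivity) (Real.exp_pos _).ne',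
      Real.log_exp, Real.log_pow] at this
    linarith
  have y3 : n * Real.log s - Real.log 16 < Real.log T.card := by
    have := Real.log_lt_log (by positivity) s1
    rw [Real.log_div (by positivity) (by norm_num), Real.log_pow] at this
    linarith
  have y4 : Real.log T.card < δ * n + n * Real.log s := by
    have := Real.log_lt_log hTpos s2
    rw [Real.log_mul (Real.exp_pos _).ne' (by positivity), Real.log_exp, Real.log_pow] at this
    linarith
  have u1 : |Real.log T.card / n - Real.log s| < η := by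
    rw [abs_lt]
    constructor
    · rw [lt_sub_iff_add_lt, lt_div_iff₀ hnpos]
      have : δ * n < η * n := mul_lt_mul_of_pos_right (by linarith) hnpos
      linarith
    · rw [sub_lt_iff_lt_add, div_lt_iff₀ hnpos]
      have : δ * n < η * n := mul_lt_mul_of_pos_right (by linarith) hnpos
      linarith
  have u2 : |Real.log X / n - Real.log (c k)| < η := by
    have h3 : 3 * (δ * n) < η * n := by
      have : 3 * δ < η := by linarith
      nlinarith
    rw [abs_lt]
    constructor
    · rw [lt_sub_iff_add_lt, lt_div_iff₀ hnpos]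
      linarith
    · rw [sub_lt_iff_lt_add, div_lt_iff₀ hnpos]
      linarith
  have := hquot k hkK _ _ u1 u2
  have e : Real.log X / n / (Real.log T.card / n) = Real.log X / Real.log T.card := by
    rw [div_div_div_cancel_right₀ hnpos.ne']
  rwa [e] at this

end Pool.Agent.X55.FD
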