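import Pool.Agent.X55.FD.Good
import Pool.Agent.X55.FD.Cram

/-! Random sets of integer vectors: the exponential growth rates of the expectations. -/

set_option linter.unusedSectionVars false

namespace Pool.Agent.X55.FD
open Finset

/-- the sum with a dilate on integers -/
def sk (k : ℤ) : ℤ → ℤ → ℤ := fun x y => x + k * y

/-- the sum with a dilate on integer vectors -/
def fk (n : ℕ) (k : ℤ) : (Fin n → ℤ) → (Fin n → ℤ) → (Fin n → ℤ) := fun x y i => x i + k * y i

/-- the size over a finite set -/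
noncomputable def sz (G : Finset ℤ) (g : ℤ → ℝ) : ℝ := ⨅ p : Set.Ioo (0 : ℝ) 1, ∑ m ∈ G, g m ^ (p : ℝ)

theorem sz_bdd (G : Finset ℤ) (g : ℤ → ℝ) (hg : ∀ m ∈ G, 0 ≤ g m) :
    BddBelow (Set.range fun p : Set.Ioo (0 : ℝ) 1 => ∑ m ∈ G, g m ^ (p : ℝ)) :=
  ⟨0, by rintro _ ⟨p, rfl⟩; exact sum_nonneg fun m hm => Real.rpow_nonneg (hg m hm) _⟩

instance : Nonempty (Set.Ioo (0 : ℝ) 1) := ⟨⟨1 / 2, by norm_num, by norm_num⟩⟩

theorem sz_nonneg (G : Finset ℤ) (g : ℤ → ℝ) (hg : ∀ m ∈ G, 0 ≤ g m) : 0 ≤ sz G g :=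
  le_ciInf fun _ => sum_nonneg fun m hm => Real.rpow_nonneg (hg m hm) _

theorem sz_le (G : Finset ℤ) (g : ℤ → ℝ) (hg : ∀ m ∈ G, 0 < g m) :
    ∀ p ∈ Set.Icc (0 : ℝ) 1, sz G g ≤ ∑ m ∈ G, g m ^ p := by
  have hc : Continuous fun p : ℝ => ∑ m ∈ G, g m ^ p := by
    apply continuous_finset_sum
    intro m hm
    exact Real.continuous_const_rpow (hg m hm).ne'
  have hcl : IsClosed {p : ℝ | sz G g ≤ ∑ m ∈ G, g m ^ p} := isClosed_le continuous_const hc
  have hsub : Set.Ioo (0 : ℝ) 1 ⊆ {p : ℝ | sz G g ≤ ∑ m ∈ G, g m ^ p} := by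
    intro p hp
    exact ciInf_le (sz_bdd G g fun m hm => (hg m hm).le) ⟨p, hp⟩
  have := closure_minimal hsub hcl
  rw [closure_Ioo (by norm_num)] at this
  exact fun p hp => this hp

theorem Ga_prod (α : ℤ → ℝ) (F : Finset ℤ) (n : ℕ) (k : ℤ) (z : Fin n → ℤ) :
    Ga (fun x : Fin n → ℤ => ∏ i, α (x i)) (fk n k) (Fintype.piFinset fun _ => F) z =
      ∏ i, Ga α (sk k) F (z i) := by
  unfold Ga
  rw [Finset.prod_univ_sum]
  refine sum_bij' (fun q _ => fun i => (q.1 i, q.2 i)) (fun r _ => (fun i => (r i).1, fun i => (r i).2))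
    ?_ ?_ ?_ ?_ ?_
  · intro q hq
    obtain ⟨⟨h1, h2⟩, h3⟩ := mem_Q.mp hq
    rw [Fintype.mem_piFinset] at h1 h2 ⊢
    intro i
    exact mem_Q.mpr ⟨⟨h1 i, h2 i⟩, congrFun h3 i⟩
  · intro r hr
    rw [Fintype.mem_piFinset] at hr
    refine mem_Q.mpr ⟨⟨?_, ?_⟩, ?_⟩
    · rw [Fintype.mem_piFinset]
      exact fun i => (mem_Q.mp (hr i)).1.1
    · rw [Fintype.mem_piFinset]
      exact fun i => (mem_Q.mp (hr i)).1.2
    · funext i
      exact (mem_Q.mp (hr i)).2
  · intro q _; rfl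
  · intro r _; rfl
  · intro q _
    dsimp only
    rw [prod_mul_distrib]

section
variable {F : Finset ℤ} {α : ℤ → ℝ} (h0 : ∀ n, 0 ≤ α n) (h1 : ∀ n, α n ≤ 1)
  (hF : ∀ n ∈ F, 0 < α n)
include h0 h1 hF

theorem sum_le_rpow {p : ℝ} (hp : p ≤ 1) :
    ∑ m ∈ F, α m ≤ ∑ m ∈ F, α m ^ p := by
  apply sum_le_sum
  intro m hm
  have := Real.rpow_le_rpow_of_exponent_ge (hF m hm) (h1 m) hp
  rwa [Real.rpow_one] at this

theorem sz_alpha : sz F α = ∑ m ∈ F, α m := by
  apply le_antisymm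
  · have := sz_le F α hF 1 ⟨by norm_num, le_rfl⟩
    simpa using this
  · exact le_ciInf fun p => sum_le_rpow h0 h1 hF p.2.2.le

theorem Ga_pos {k : ℤ} : ∀ m ∈ image₂ (sk k) F F, 0 < Ga α (sk k) F m := by
  intro m hm
  obtain ⟨x, hx, y, hy, hxy⟩ := mem_image₂.mp hm
  have hq : ((x, y) : ℤ × ℤ) ∈ Q (sk k) F m := mem_Q.mpr ⟨⟨hx, hy⟩, hxy⟩
  have := single_le_sum (f := fun q : ℤ × ℤ => α q.1 * α q.2)
    (fun q _ => mul_nonneg (h0 _) (h0 _)) hq
  exact lt_of_lt_of_le (mul_pos (hF x hx) (hF y hy)) this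

/-- Jensen's inequality: the size of a dilate sum is at least the size of the set -/
theorem sz_ge {k : ℤ} (hs : 1 ≤ ∑ m ∈ F, α m) :
    ∑ m ∈ F, α m ≤ sz (image₂ (sk k) F F) (Ga α (sk k) F) := by
  classical
  apply le_ciInf
  rintro ⟨p, hp0, hp1⟩
  dsimp only
  set s := ∑ m ∈ F, α m with hsd
  have hspos : 0 < s := by linarith
  set β : ℤ → ℝ := fun x => if x ∈ F then α x else 0 with hβ
  have hβ0 : ∀ x, 0 ≤ β x := by
    intro x
    rw [hβ]
    dsimp only
    split_ifs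
    · exact h0 x
    · exact le_rfl
  have e1 : ∀ m, Ga α (sk k) F m = ∑ j ∈ F, α j * β (m - k * j) := by
    intro m
    unfold Ga Q
    rw [sum_filter, sum_product_right]
    apply sum_congr rfl
    intro j _
    have : ∀ i : ℤ, (sk k i j = m) ↔ i = m - k * j := by
      intro i
      unfold sk
      constructor <;> intro h <;> linarith
    simp only [this]
    rw [hβ]
    dsimp only
    rw [sum_ite_eq' F (m - k * j) (fun i => α i * α j)]
    split_ifs
    · ring
    · ring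
  have e2 : ∀ j ∈ F, s ≤ ∑ m ∈ image₂ (sk k) F F, β (m - k * j) ^ p := by
    intro j hj
    have q1 := sum_le_rpow h0 h1 hF hp1.le
    refine q1.trans ?_
    have q2 : ∑ m ∈ F, α m ^ p = ∑ m ∈ F.image (fun i => i + k * j), β (m - k * j) ^ p := by
      rw [sum_image (fun x _ y _ h => by simpa using h)]
      apply sum_congr rfl
      intro i hi
      have : i + k * j - k * j = i := by ring
      rw [this, hβ]
      dsimp only
      rw [if_pos hi]
    rw [q2]
    apply sum_le_sum_of_subset_of_nonneg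
    · intro m hm
      obtain ⟨i, hi, rfl⟩ := mem_image.mp hm
      exact mem_image₂.mpr ⟨i, hi, j, hj, rfl⟩
    · intro m _ _
      exact Real.rpow_nonneg (hβ0 _) _
  have e3 : ∀ m, s ^ p * ∑ j ∈ F, (α j / s) * β (m - k * j) ^ p ≤ Ga α (sk k) F m ^ p := by
    intro m
    have hconc := Real.concaveOn_rpow hp0.le hp1.le
    have := hconc.le_map_sum (t := F) (w := fun j => α j / s) (p := fun j => s * β (m - k * j))
      (fun j hj => div_nonneg (h0 j) hspos.le) (by rw [← sum_div, ← hsd, div_self hspos.ne'])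
      (fun j _ => mul_nonneg hspos.le (hβ0 _))
    simp only [smul_eq_mul] at this
    have q1 : ∑ j ∈ F, α j / s * (s * β (m - k * j)) = Ga α (sk k) F m := by
      rw [e1]
      apply sum_congr rfl
      intro j _
      field_simp
    rw [q1] at this
    refine le_trans (le_of_eq ?_) this
    rw [mul_sum]
    apply sum_congr rfl
    intro j _
    rw [Real.mul_rpow hspos.le (hβ0 _)]
    ring
  have e4 : s ^ p * ∑ j ∈ F, (α j / s) * ∑ m ∈ image₂ (sk k) F F, β (m - k * j) ^ p ≤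
      ∑ m ∈ image₂ (sk k) F F, Ga α (sk k) F m ^ p := by
    have q := sum_le_sum (s := image₂ (sk k) F F) fun m _ => e3 m
    refine le_trans (le_of_eq ?_) q
    rw [← mul_sum, sum_comm]
    congr 1
    apply sum_congr rfl
    intro j _
    rw [mul_sum]
  refine le_trans ?_ e4
  have e5 : ∑ j ∈ F, (α j / s) * s ≤
      ∑ j ∈ F, (α j / s) * ∑ m ∈ image₂ (sk k) F F, β (m - k * j) ^ p := by
    apply sum_le_sum
    intro j hj
    exact mul_le_mul_of_nonneg_left (e2 j hj) (div_nonneg (h0 j) hspos.le)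
  have e6 : ∑ j ∈ F, (α j / s) * s = s := by
    rw [hsd]
    apply sum_congr rfl
    intro j _
    rw [← hsd]
    field_simp
  rw [e6] at e5
  have e7 : 1 ≤ s ^ p := Real.one_le_rpow hs hp0.le
  nlinarith

/-- the expectations -/
theorem expect_bounds {k : ℤ} (hk : k ≠ 0) (hs : 1 ≤ ∑ m ∈ F, α m) (hne : F.Nonempty) {δ : ℝ}
    (hδ : 0 < δ) : ∃ n0 : ℕ, ∀ n ≥ n0,
      sz (image₂ (sk k) F F) (Ga α (sk k) F) ^ n * Real.exp (-(δ * n)) / 8 ≤
        Ex (fun x : Fin n → ℤ => ∏ i, α (x i)) (Fintype.piFinset fun _ => F)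
          (fun S => ((image₂ (fk n k) S S).card : ℝ)) ∧
      Ex (fun x : Fin n → ℤ => ∏ i, α (x i)) (Fintype.piFinset fun _ => F)
          (fun S => ((image₂ (fk n k) S S).card : ℝ)) ≤
        2 * (sz (image₂ (sk k) F F) (Ga α (sk k) F) ^ n * Real.exp (δ * n)) := by
  classical
  set c := sz (image₂ (sk k) F F) (Ga α (sk k) F) with hc
  set g := Ga α (sk k) F with hg
  set G := image₂ (sk k) F F with hG
  have hgpos : ∀ m ∈ G, 0 < g m := Ga_pos h0 h1 hF
  have hcs : ∑ m ∈ F, α m ≤ c := sz_ge h0 h1 hF hs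
  have hc1 : 1 ≤ c := by linarith
  have hcpos : 0 < c := by linarith
  have hGne : G.Nonempty := hne.image₂ hne
  obtain ⟨n0, hn0⟩ := cramer G g hgpos hGne (c := c) hcpos.le (sz_le G g hgpos) hδ
  -- an exponent for the upper bound
  have hlt : c < c * Real.exp δ := by
    have : 1 < Real.exp δ := Real.one_lt_exp_iff.mpr hδ
    nlinarith
  obtain ⟨⟨p, hp0, hp1⟩, hp⟩ := exists_lt_of_ciInf_lt (show (⨅ p : Set.Ioo (0 : ℝ) 1,
    ∑ m ∈ G, g m ^ (p : ℝ)) < c * Real.exp δ from hlt)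
  dsimp only at hp
  refine ⟨n0, fun n hn => ?_⟩
  set a : (Fin n → ℤ) → ℝ := fun x => ∏ i, α (x i) with ha
  set U : Finset (Fin n → ℤ) := Fintype.piFinset fun _ => F with hU
  have a0 : ∀ x, 0 ≤ a x := fun x => prod_nonneg fun i _ => h0 _
  have a1 : ∀ x, a x ≤ 1 := fun x => prod_le_one (fun i _ => h0 _) fun i _ => h1 _
  set V : Finset (Fin n → ℤ) := Fintype.piFinset fun _ => G with hV
  have hsub : ∀ S ⊆ U, image₂ (fk n k) S S ⊆ V := by
    intro S hS z hz
    obtain ⟨x, hx, y, hy, rfl⟩ := mem_image₂.mp hz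
    have hx' := Fintype.mem_piFinset.mp (hS hx)
    have hy' := Fintype.mem_piFinset.mp (hS hy)
    rw [hV, Fintype.mem_piFinset]
    intro i
    exact mem_image₂.mpr ⟨x i, hx' i, y i, hy' i, rfl⟩
  have hE : Ex a U (fun S => ((image₂ (fk n k) S S).card : ℝ)) =
      ∑ z ∈ V, Ex a U (fun S => if z ∈ image₂ (fk n k) S S then 1 else 0) := by
    rw [← Ex_sum]
    apply Ex_congr
    intro S hS
    rw [card_eq_sum (hsub S hS)]
  have hA : ∑ x ∈ U, a x = (∑ m ∈ F, α m) ^ n := by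
    have := Finset.prod_univ_sum (fun _ : Fin n => F) (fun _ m => α m)
    rw [← this]
    simp
  rw [hE]
  have hf1 : ∀ x, Function.Injective (fk n k x) := by
    intro x y y' h
    funext i
    have := congrFun h i
    simp only [fk] at this
    have h2 : k * y i = k * y' i := by linarith
    exact mul_left_cancel₀ hk h2
  have hf2 : ∀ y, Function.Injective fun x => fk n k x y := by
    intro y x x' h
    funext i
    have := congrFun h i
    simp only [fk] at this
    linarith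
  constructor
  · have e1 : ∀ z ∈ V, min 1 (∏ i, g (z i)) / 4 ≤
        Ex a U (fun S => if z ∈ image₂ (fk n k) S S then 1 else 0) := by
      intro z _
      have := le_prob a0 a1 hf1 hf2 U z
      rwa [Ga_prod] at this
    have e2 := sum_le_sum e1
    rw [← sum_div] at e2
    have e3 := hn0 n hn
    linarith
  · have e1 : ∀ z ∈ V, Ex a U (fun S => if z ∈ image₂ (fk n k) S S then 1 else 0) ≤
        (∏ i, g (z i) ^ p) + ∑ x ∈ U, if fk n k x x = z then a x else 0 := by
      intro z hz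
      have hz' := Fintype.mem_piFinset.mp hz
      have := prob_le a0 a1 (fk n k) U z
      rw [Ga_prod] at this
      refine this.trans (add_le_add ?_ le_rfl)
      have hpos : 0 < ∏ i, g (z i) := prod_pos fun i _ => hgpos _ (hz' i)
      have e : ∏ i, g (z i) ^ p = (∏ i, g (z i)) ^ p :=
        Real.finsetProd_rpow univ (fun i => g (z i)) (fun i _ => (hgpos _ (hz' i)).le) p
      rw [e]
      rcases le_total 1 (∏ i, g (z i)) with h | h
      · refine (min_le_left _ _).trans ?_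
        exact Real.one_le_rpow h hp0.le
      · refine (min_le_right _ _).trans ?_
        have := Real.rpow_le_rpow_of_exponent_ge hpos h hp1.le
        rwa [Real.rpow_one] at this
    refine (sum_le_sum e1).trans ?_
    rw [sum_add_distrib]
    have e2 : ∑ z ∈ V, ∏ i, g (z i) ^ p = (∑ m ∈ G, g m ^ p) ^ n := by
      have := Finset.prod_univ_sum (fun _ : Fin n => G) (fun _ m => g m ^ p)
      rw [← this]
      simp
    have e3 : ∑ z ∈ V, ∑ x ∈ U, (if fk n k x x = z then a x else 0) ≤ ∑ x ∈ U, a x := by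
      rw [sum_comm]
      apply sum_le_sum
      intro x _
      rw [sum_ite_eq]
      split_ifs
      · exact le_rfl
      · exact a0 x
    rw [e2]
    rw [hA] at e3
    have hg0 : 0 ≤ ∑ m ∈ G, g m ^ p := sum_nonneg fun m hm => Real.rpow_nonneg (hgpos m hm).le _
    have e4 : (∑ m ∈ G, g m ^ p) ^ n ≤ (c * Real.exp δ) ^ n := pow_le_pow_left₀ hg0 hp.le n
    have e5 : (c * Real.exp δ) ^ n = c ^ n * Real.exp (δ * n) := by
      rw [mul_pow, ← Real.exp_nat_mul, mul_comm (n : ℝ) δ]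
    have e6 : (∑ m ∈ F, α m) ^ n ≤ c ^ n := pow_le_pow_left₀ (by linarith) hcs n
    have e7 : c ^ n ≤ c ^ n * Real.exp (δ * n) := by
      have q1 : 1 ≤ Real.exp (δ * n) := Real.one_le_exp (by positivity)
      have q2 : 0 < c ^ n := pow_pos hcpos n
      nlinarith
    linarith

end

end Pool.Agent.X55.FD
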