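import Pool.Agent.X55.FD.Prod

/-! From integer vectors to integers. -/

set_option linter.unusedSectionVars false

namespace Pool.Agent.X55.FD
open Finset

/-- digits -/
def rad (M : ℤ) {n : ℕ} (x : Fin n → ℤ) : ℤ := ∑ i, x i * M ^ (i : ℕ)

theorem rad_zero {M : ℤ} : ∀ {n : ℕ} (d : Fin n → ℤ), (∀ i, |d i| < M) → rad M d = 0 → d = 0 := by
  intro n
  induction n with
  | zero => intro d _ _; funext i; exact i.elim0
  | succ n ih =>
    intro d hd h
    have hM : 0 < M := lt_of_le_of_lt (abs_nonneg _) (hd 0)
    have e : rad M d = d 0 + M * rad M (fun i : Fin n => d i.succ) := by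
      unfold rad
      rw [Fin.sum_univ_succ, mul_sum]
      congr 1
      · simp
      · apply sum_congr rfl
        intro i _
        rw [Fin.val_succ, pow_succ]
        ring
    rw [e] at h
    have h2 : M ∣ d 0 := ⟨-rad M (fun i : Fin n => d i.succ), by linarith⟩
    have h3 : d 0 = 0 := Int.eq_zero_of_abs_lt_dvd h2 (hd 0)
    rw [h3, zero_add] at h
    have h4 : rad M (fun i : Fin n => d i.succ) = 0 := by
      rcases mul_eq_zero.mp h with h5 | h5
      · exact absurd h5 hM.ne'
      · exact h5
    have h5 := ih (fun i => d i.succ) (fun i => hd i.succ) h4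
    funext i
    refine Fin.cases ?_ ?_ i
    · exact h3
    · intro j
      exact congrFun h5 j

theorem rad_add {M : ℤ} {n : ℕ} (k : ℤ) (x y : Fin n → ℤ) :
    rad M (fk n k x y) = rad M x + k * rad M y := by
  unfold rad fk
  rw [mul_sum, ← sum_add_distrib]
  apply sum_congr rfl
  intro i _
  ring

theorem rad_inj {M B : ℤ} (hM : 2 * B < M) {n : ℕ} {T : Set (Fin n → ℤ)}
    (hT : ∀ x ∈ T, ∀ i, |x i| ≤ B) : Set.InjOn (rad M) T := by
  intro x hx y hy h
  have h1 : rad M (fun i => x i - y i) = 0 := by
    have : rad M (fun i => x i - y i) = rad M x - rad M y := by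
      unfold rad
      rw [← sum_sub_distrib]
      apply sum_congr rfl
      intro i _
      ring
    rw [this, h, sub_self]
  have h2 := rad_zero (M := M) (fun i => x i - y i) (fun i => by
    have a1 := hT x hx i
    have a2 := hT y hy i
    have := abs_sub (x i) (y i)
    linarith) h1
  funext i
  have := congrFun h2 i
  simp only [Pi.zero_apply] at this
  linarith

/-- a finite set of integer vectors can be replaced by a set of integers -/
theorem exists_radix (F : Finset ℤ) (N n : ℕ) (S : Finset (Fin n → ℤ))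
    (hS : S ⊆ Fintype.piFinset fun _ => F) : ∃ T : Finset ℤ, T.card = S.card ∧
      ∀ k : ℤ, |k| ≤ N → (image₂ (sk k) T T).card = (image₂ (fk n k) S S).card := by
  classical
  obtain ⟨B0, hB0⟩ : ∃ B0 : ℤ, ∀ m ∈ F, |m| ≤ B0 := by
    refine ⟨∑ m ∈ F, |m|, fun m hm => ?_⟩
    exact single_le_sum (f := fun m : ℤ => |m|) (fun m _ => abs_nonneg m) hm
  by_cases hB : 0 ≤ B0
  · set B : ℤ := B0 * (1 + N) with hBd
    set M : ℤ := 2 * B + 1 with hM
    have hx : ∀ x ∈ S, ∀ i, |x i| ≤ B0 := fun x hx i => hB0 _ (Fintype.mem_piFinset.mp (hS hx) i)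
    have hBB : B0 ≤ B := by
      rw [hBd]
      nlinarith [mul_nonneg hB (Int.natCast_nonneg N)]
    refine ⟨S.image (rad M), ?_, fun k hk => ?_⟩
    · apply card_image_of_injOn
      apply rad_inj (B := B) (by omega)
      intro x hx' i
      exact (hx x hx' i).trans hBB
    · have e : image₂ (sk k) (S.image (rad M)) (S.image (rad M)) =
          (image₂ (fk n k) S S).image (rad M) := by
        ext z
        constructor
        · intro hz
          obtain ⟨u, hu, v, hv, rfl⟩ := mem_image₂.mp hz
          obtain ⟨x, hx1, rfl⟩ := mem_image.mp hu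
          obtain ⟨y, hy1, rfl⟩ := mem_image.mp hv
          exact mem_image.mpr ⟨fk n k x y, mem_image₂.mpr ⟨x, hx1, y, hy1, rfl⟩, rad_add k x y⟩
        · intro hz
          obtain ⟨w, hw, rfl⟩ := mem_image.mp hz
          obtain ⟨x, hx1, y, hy1, rfl⟩ := mem_image₂.mp hw
          exact mem_image₂.mpr ⟨rad M x, mem_image_of_mem _ hx1, rad M y, mem_image_of_mem _ hy1,
            (rad_add k x y).symm⟩
      rw [e]
      apply card_image_of_injOn
      apply rad_inj (B := B) (by omega)
      intro z hz i
      obtain ⟨x, hx1, y, hy1, rfl⟩ := mem_image₂.mp hz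
      have a1 := hx x hx1 i
      have a2 := hx y hy1 i
      have a3 : |x i + k * y i| ≤ |x i| + |k| * |y i| := by
        rw [← abs_mul]
        exact abs_add_le _ _
      have a4 : |k| * |y i| ≤ N * B0 := mul_le_mul hk a2 (abs_nonneg _) (by positivity)
      show |x i + k * y i| ≤ B
      rw [hBd]
      linarith
  · -- then `F` is empty, or there is nothing to prove
    have hFe : ∀ m ∈ F, False := fun m hm => hB ((abs_nonneg m).trans (hB0 m hm))
    by_cases hn : S = ∅
    · refine ⟨∅, ?_, fun k _ => ?_⟩
      · rw [hn]; rfl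
      · rw [hn]; simp
    · obtain ⟨x, hx⟩ := nonempty_iff_ne_empty.mpr hn
      have hx' := Fintype.mem_piFinset.mp (hS hx)
      have hn0 : n = 0 := by
        by_contra h
        exact hFe _ (hx' ⟨0, Nat.pos_of_ne_zero h⟩)
      subst hn0
      have hS1 : S = {x} := by
        ext y
        simp only [mem_singleton]
        constructor
        · intro _; exact Subsingleton.elim _ _
        · intro h; rw [h]; exact hx
      refine ⟨{0}, ?_, fun k _ => ?_⟩
      · rw [hS1]; simp
      · rw [hS1]; simp

end Pool.Agent.X55.FD
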