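import Mathlib

/-! Random subsets of a finite set with independent elements: expectations, the Efron–Stein
inequality, and the variance of the number of values of a binary function on a random set. -/

namespace Pool.Agent.X55.FD
open Finset

variable {ι : Type*} [DecidableEq ι]

/-- the probability of the subset `S` of `U` when `i` is chosen with probability `a i` -/
noncomputable def wt (a : ι → ℝ) (U S : Finset ι) : ℝ :=
  (∏ i ∈ S, a i) * ∏ i ∈ U \ S, (1 - a i)

/-- the expectation of `X S` -/
noncomputable def Ex (a : ι → ℝ) (U : Finset ι) (X : Finset ι → ℝ) : ℝ :=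
  ∑ S ∈ U.powerset, wt a U S * X S

theorem Ex_insert {a : ι → ℝ} {U : Finset ι} {j : ι} (hj : j ∉ U) (X : Finset ι → ℝ) :
    Ex a (insert j U) X = a j * Ex a U (fun S => X (insert j S)) + (1 - a j) * Ex a U X := by
  unfold Ex
  rw [Finset.sum_powerset_insert hj, mul_sum, mul_sum, add_comm]
  congr 1
  · apply sum_congr rfl
    intro S hS
    rw [mem_powerset] at hS
    have hjS : j ∉ S := fun h => hj (hS h)
    have h2 : insert j U \ insert j S = U \ S := by
      ext x
      simp only [mem_sdiff, mem_insert, not_or]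
      constructor
      · rintro ⟨h1 | h1, h3, h4⟩
        · exact absurd h1 h3
        · exact ⟨h1, h4⟩
      · rintro ⟨h1, h3⟩
        exact ⟨Or.inr h1, fun h => hj (h ▸ h1), h3⟩
    unfold wt
    rw [prod_insert hjS, h2]
    ring
  · apply sum_congr rfl
    intro S hS
    rw [mem_powerset] at hS
    have hjS : j ∉ S := fun h => hj (hS h)
    have h2 : insert j U \ S = insert j (U \ S) := by
      ext x
      simp only [mem_sdiff, mem_insert]
      constructor
      · rintro ⟨h1 | h1, h3⟩
        · exact Or.inl h1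
        · exact Or.inr ⟨h1, h3⟩
      · rintro (h1 | h1)
        · exact ⟨Or.inl h1, h1 ▸ hjS⟩
        · exact ⟨Or.inr h1.1, h1.2⟩
    have h3 : j ∉ U \ S := fun h => hj (mem_sdiff.mp h).1
    unfold wt
    rw [h2, prod_insert h3]
    ring

theorem Ex_empty (a : ι → ℝ) (X : Finset ι → ℝ) : Ex a ∅ X = X ∅ := by
  simp [Ex, wt]

theorem Ex_congr {a : ι → ℝ} {U : Finset ι} {X Y : Finset ι → ℝ} (h : ∀ S ⊆ U, X S = Y S) :
    Ex a U X = Ex a U Y := by
  unfold Ex
  apply sum_congr rfl
  intro S hS
  rw [h S (mem_powerset.mp hS)]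

theorem Ex_add (a : ι → ℝ) (U : Finset ι) (X Y : Finset ι → ℝ) :
    Ex a U (fun S => X S + Y S) = Ex a U X + Ex a U Y := by
  unfold Ex
  rw [← sum_add_distrib]
  apply sum_congr rfl
  intro S _
  ring

theorem Ex_sub (a : ι → ℝ) (U : Finset ι) (X Y : Finset ι → ℝ) :
    Ex a U (fun S => X S - Y S) = Ex a U X - Ex a U Y := by
  unfold Ex
  rw [← sum_sub_distrib]
  apply sum_congr rfl
  intro S _
  ring

theorem Ex_mul (a : ι → ℝ) (U : Finset ι) (c : ℝ) (X : Finset ι → ℝ) :
    Ex a U (fun S => c * X S) = c * Ex a U X := by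
  unfold Ex
  rw [mul_sum]
  apply sum_congr rfl
  intro S _
  ring

theorem Ex_sum {κ : Type*} (a : ι → ℝ) (U : Finset ι) (T : Finset κ) (X : κ → Finset ι → ℝ) :
    Ex a U (fun S => ∑ k ∈ T, X k S) = ∑ k ∈ T, Ex a U (X k) := by
  unfold Ex
  rw [sum_comm]
  apply sum_congr rfl
  intro S _
  rw [mul_sum]

theorem Ex_const (a : ι → ℝ) (U : Finset ι) (c : ℝ) : Ex a U (fun _ => c) = c := by
  induction U using Finset.induction_on with
  | empty => exact Ex_empty _ _
  | insert j U hj ih =>
    rw [Ex_insert hj]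
    simp only [ih]
    ring

section
variable {a : ι → ℝ} (h0 : ∀ i, 0 ≤ a i) (h1 : ∀ i, a i ≤ 1)
include h0 h1

theorem wt_nonneg (U S : Finset ι) : 0 ≤ wt a U S :=
  mul_nonneg (prod_nonneg fun i _ => h0 i) (prod_nonneg fun i _ => sub_nonneg.mpr (h1 i))

theorem Ex_mono {U : Finset ι} {X Y : Finset ι → ℝ} (h : ∀ S ⊆ U, X S ≤ Y S) :
    Ex a U X ≤ Ex a U Y := by
  unfold Ex
  apply sum_le_sum
  intro S hS
  exact mul_le_mul_of_nonneg_left (h S (mem_powerset.mp hS)) (wt_nonneg h0 h1 U S)

theorem Ex_nonneg {U : Finset ι} {X : Finset ι → ℝ} (h : ∀ S ⊆ U, 0 ≤ X S) : 0 ≤ Ex a U X := by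
  unfold Ex
  apply sum_nonneg
  intro S hS
  exact mul_nonneg (wt_nonneg h0 h1 U S) (h S (mem_powerset.mp hS))

/-- the first moment method -/
theorem Ex_exists {U : Finset ι} {X : Finset ι → ℝ} {c : ℝ} (h : Ex a U X < c) :
    ∃ S ⊆ U, X S < c := by
  by_contra hc
  push Not at hc
  have := Ex_mono h0 h1 (U := U) (X := fun _ => c) (Y := X) hc
  rw [Ex_const] at this
  linarith

theorem Ex_sq (U : Finset ι) (X : Finset ι → ℝ) :
    (Ex a U X) ^ 2 ≤ Ex a U (fun S => X S ^ 2) := by
  have h := Ex_nonneg h0 h1 (U := U) (X := fun S => (X S - Ex a U X) ^ 2) (fun S _ => sq_nonneg _)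
  have h2 : Ex a U (fun S => (X S - Ex a U X) ^ 2) =
      Ex a U (fun S => X S ^ 2) - (Ex a U X) ^ 2 := by
    have : (fun S => (X S - Ex a U X) ^ 2) =
        fun S => (X S ^ 2 - 2 * Ex a U X * X S) + (Ex a U X) ^ 2 := by
      ext S; ring
    rw [this, Ex_add, Ex_sub, Ex_mul, Ex_const]
    ring
  linarith

/-- the Efron–Stein inequality -/
theorem efron_stein (U : Finset ι) (X : Finset ι → ℝ) :
    Ex a U (fun S => X S ^ 2) - (Ex a U X) ^ 2 ≤
      ∑ i ∈ U, a i * (1 - a i) * Ex a U (fun S => (X (insert i S) - X (S.erase i)) ^ 2) := by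
  induction U using Finset.induction_on generalizing X with
  | empty => simp [Ex_empty]
  | insert j U hj ih =>
    rw [sum_insert hj, Ex_insert hj, Ex_insert hj]
    set Y : Finset ι → ℝ := fun S => X (insert j S) with hY
    have e1 := ih X
    have e2 := ih Y
    -- the term `j`
    have e3 : Ex a (insert j U) (fun S => (X (insert j S) - X (S.erase j)) ^ 2) =
        Ex a U (fun S => (Y S - X S) ^ 2) := by
      rw [Ex_insert hj]
      have q1 : Ex a U (fun S => (X (insert j (insert j S)) - X ((insert j S).erase j)) ^ 2) =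
          Ex a U (fun S => (Y S - X S) ^ 2) := by
        apply Ex_congr
        intro S hS
        have hjS : j ∉ S := fun h => hj (hS h)
        rw [insert_idem, erase_insert hjS]
      have q2 : Ex a U (fun S => (X (insert j S) - X (S.erase j)) ^ 2) =
          Ex a U (fun S => (Y S - X S) ^ 2) := by
        apply Ex_congr
        intro S hS
        have hjS : j ∉ S := fun h => hj (hS h)
        rw [erase_eq_of_notMem hjS]
      rw [q1, q2]
      ring
    have e4 : (Ex a U Y - Ex a U X) ^ 2 ≤ Ex a U (fun S => (Y S - X S) ^ 2) := by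
      rw [← Ex_sub]
      exact Ex_sq h0 h1 U _
    have e5 : ∑ i ∈ U, a i * (1 - a i) * Ex a (insert j U)
        (fun S => (X (insert i S) - X (S.erase i)) ^ 2) =
        a j * (∑ i ∈ U, a i * (1 - a i) * Ex a U (fun S => (Y (insert i S) - Y (S.erase i)) ^ 2))
        + (1 - a j) * (∑ i ∈ U, a i * (1 - a i) *
          Ex a U (fun S => (X (insert i S) - X (S.erase i)) ^ 2)) := by
      rw [mul_sum, mul_sum, ← sum_add_distrib]
      apply sum_congr rfl
      intro i hi
      have hij : i ≠ j := fun h => hj (h ▸ hi)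
      rw [Ex_insert hj]
      have q1 : Ex a U (fun S => (X (insert i (insert j S)) - X ((insert j S).erase i)) ^ 2) =
          Ex a U (fun S => (Y (insert i S) - Y (S.erase i)) ^ 2) := by
        apply Ex_congr
        intro S hS
        rw [hY, insert_comm, erase_insert_of_ne hij.symm]
      rw [q1]
      ring
    rw [e3, e5]
    have ha0 := h0 j
    have ha1 : 0 ≤ 1 - a j := sub_nonneg.mpr (h1 j)
    have f1 := mul_le_mul_of_nonneg_left e1 ha1
    have f2 := mul_le_mul_of_nonneg_left e2 ha0
    have f3 := mul_le_mul_of_nonneg_left e4 (mul_nonneg ha0 ha1)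
    have e6 : Ex a U (fun S => X (insert j S) ^ 2) = Ex a U (fun S => Y S ^ 2) := rfl
    rw [e6]
    nlinarith [f1, f2, f3]

end

theorem Ex_mem {a : ι → ℝ} {U : Finset ι} {i : ι} (hi : i ∈ U) (Y : Finset ι → ℝ) :
    Ex a U (fun S => if i ∈ S then Y S else 0) = a i * Ex a U (fun S => Y (insert i S)) := by
  have hU : U = insert i (U.erase i) := (insert_erase hi).symm
  have hn : i ∉ U.erase i := notMem_erase i U
  rw [hU, Ex_insert hn, Ex_insert hn]
  have q1 : Ex a (U.erase i) (fun S => if i ∈ insert i S then Y (insert i S) else 0) =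
      Ex a (U.erase i) (fun S => Y (insert i S)) := by
    apply Ex_congr
    intro S _
    simp
  have q2 : Ex a (U.erase i) (fun S => if i ∈ S then Y S else 0) = 0 := by
    have q4 : Ex a (U.erase i) (fun S => if i ∈ S then Y S else 0) =
        Ex a (U.erase i) (fun _ => (0 : ℝ)) := by
      apply Ex_congr
      intro S hS
      have : i ∉ S := fun h => hn (hS h)
      simp [this]
    rw [q4, Ex_const]
  have q3 : Ex a (U.erase i) (fun S => Y (insert i (insert i S))) =
      Ex a (U.erase i) (fun S => Y (insert i S)) := by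
    apply Ex_congr
    intro S _
    rw [insert_idem]
  rw [q1, q2, q3]
  ring

theorem card_eq_sum {U S : Finset ι} (hS : S ⊆ U) : (S.card : ℝ) = ∑ i ∈ U, if i ∈ S then 1 else 0 := by
  rw [← sum_filter]
  rw [filter_mem_eq_inter, inter_eq_right.mpr hS]
  simp

theorem Ex_card (a : ι → ℝ) (U : Finset ι) : Ex a U (fun S => (S.card : ℝ)) = ∑ i ∈ U, a i := by
  have : Ex a U (fun S => (S.card : ℝ)) = Ex a U (fun S => ∑ i ∈ U, if i ∈ S then 1 else 0) :=
    Ex_congr fun S hS => card_eq_sum hS
  rw [this, Ex_sum]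
  apply sum_congr rfl
  intro i hi
  have h := Ex_mem (a := a) hi (fun _ => (1 : ℝ))
  rw [h, Ex_const, mul_one]

theorem Ex_card_mul (a : ι → ℝ) (U : Finset ι) (Y : Finset ι → ℝ) :
    Ex a U (fun S => (S.card : ℝ) * Y S) = ∑ i ∈ U, a i * Ex a U (fun S => Y (insert i S)) := by
  have : Ex a U (fun S => (S.card : ℝ) * Y S) =
      Ex a U (fun S => ∑ i ∈ U, if i ∈ S then Y S else 0) := by
    apply Ex_congr
    intro S hS
    rw [card_eq_sum hS, sum_mul]
    apply sum_congr rfl
    intro i _
    split_ifs <;> simp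
  rw [this, Ex_sum]
  apply sum_congr rfl
  intro i hi
  exact Ex_mem hi Y

/-- the probability of containing a given set -/
theorem Ex_subset {a : ι → ℝ} {U T : Finset ι} (hT : T ⊆ U) :
    Ex a U (fun S => if T ⊆ S then 1 else 0) = ∏ i ∈ T, a i := by
  induction T using Finset.induction_on with
  | empty =>
    simp [Ex_const]
  | insert j T hj ih =>
    have hjU : j ∈ U := hT (mem_insert_self j T)
    have hTU : T ⊆ U := fun x hx => hT (mem_insert_of_mem hx)
    have e1 : Ex a U (fun S => if insert j T ⊆ S then (1 : ℝ) else 0) =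
        Ex a U (fun S => if j ∈ S then (if T ⊆ S then (1 : ℝ) else 0) else 0) := by
      apply Ex_congr
      intro S _
      simp only [insert_subset_iff]
      by_cases h1 : j ∈ S <;> by_cases h2 : T ⊆ S <;> simp [h1, h2]
    rw [e1, Ex_mem hjU, prod_insert hj, ← ih hTU]
    congr 1
    -- both sides do not depend on `j`
    have hU : U = insert j (U.erase j) := (insert_erase hjU).symm
    have hn : j ∉ U.erase j := notMem_erase j U
    have e2 : ∀ S, (T ⊆ insert j S) ↔ T ⊆ S := by
      intro S
      constructor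
      · intro h x hx
        rcases mem_insert.mp (h hx) with h3 | h3
        · exact absurd (h3 ▸ hx) hj
        · exact h3
      · intro h x hx
        exact mem_insert_of_mem (h hx)
    simp only [e2]

end Pool.Agent.X55.FD
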